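import Mathlib

/-!
# Transitivity

`exists_equiv`: choose complements: `W = (W ⊓ U) ⊕ W₁`, `U = (W ⊓ U) ⊕ U₁`, `V = (W ⊓ U) ⊕ W₁ ⊕ U₁ ⊕ R`, and the same for `W'`. The four pieces have
the same dimensions for `W` and `W'` (`finrank W₁ = finrank W - finrank (W ⊓ U)`, `finrank U₁ = finrank U - finrank (W ⊓ U)`, `R`: the rest).
Choose isomorphisms of the pieces and put them together. A way in Lean: choose a linear map step by step: an isomorphism
`e₁ : W ⊓ U ≃ W' ⊓ U`; bases: `Submodule.exists_isCompl` inside `W`, `U`; `LinearEquiv.ofFinrankEq`; `Submodule.prodEquivOfIsCompl` three times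
(for the complements `W ⊓ U ⊔ W₁ = W`, `W ⊔ U₁ = W ⊔ U`, `W ⊔ U ⊔ R = ⊤`).
-/

set_option autoImplicit false

open Module
open scoped Classical

namespace Pool.Agent.H64.HV

/-- glueing two isomorphisms -/
private theorem tra_glue {F : Type} [Field F] {X X' : Type} [AddCommGroup X] [Module F X] [AddCommGroup X'] [Module F X']
    {P Q : Submodule F X} {P' Q' : Submodule F X'} (h : IsCompl P Q) (h' : IsCompl P' Q')
    (eP : P ≃ₗ[F] P') (eQ : Q ≃ₗ[F] Q') :
    ∃ e : X ≃ₗ[F] X', (∀ x : P, e x = eP x) ∧ ∀ x : Q, e x = eQ x := by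
  refine ⟨(Submodule.prodEquivOfIsCompl P Q h).symm ≪≫ₗ (eP.prodCongr eQ) ≪≫ₗ
    Submodule.prodEquivOfIsCompl P' Q' h', fun x => ?_, fun x => ?_⟩
  · rw [LinearEquiv.trans_apply, LinearEquiv.trans_apply,
      Submodule.prodEquivOfIsCompl_symm_apply_left]
    simp
  · rw [LinearEquiv.trans_apply, LinearEquiv.trans_apply,
      Submodule.prodEquivOfIsCompl_symm_apply_right]
    simp

/-- an isomorphism which takes a subspace to a subspace of the same dimension -/
private theorem tra_sub {F : Type} [Field F] {X X' : Type} [AddCommGroup X] [Module F X] [AddCommGroup X'] [Module F X']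
    [FiniteDimensional F X] [FiniteDimensional F X'] (hX : finrank F X = finrank F X')
    (P : Submodule F X) (P' : Submodule F X') (hP : finrank F P = finrank F P') :
    ∃ e : X ≃ₗ[F] X', ∀ x ∈ P, e x ∈ P' := by
  obtain ⟨Q, hQ⟩ := P.exists_isCompl
  obtain ⟨Q', hQ'⟩ := P'.exists_isCompl
  have h1 := Submodule.finrank_add_eq_of_isCompl hQ
  have h2 := Submodule.finrank_add_eq_of_isCompl hQ'
  obtain ⟨e, he, -⟩ := tra_glue hQ hQ' (LinearEquiv.ofFinrankEq P P' hP)
    (LinearEquiv.ofFinrankEq Q Q' (by omega))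
  refine ⟨e, fun x hx => ?_⟩
  rw [he ⟨x, hx⟩]
  exact Subtype.mem _

/-- a complement of U which contains a complement of W ⊓ U in W -/
private theorem tra_cmp {F : Type} [Field F] {V : Type} [AddCommGroup V] [Module F V] [FiniteDimensional F V] (U W : Submodule F V) :
    ∃ W₁ Q : Submodule F V, W₁ ≤ Q ∧ IsCompl U Q ∧ (W ⊓ U) ⊔ W₁ = W ∧
      finrank F (W ⊓ U : Submodule F V) + finrank F W₁ = finrank F W := by
  obtain ⟨C, hC⟩ := ((W ⊓ U).comap W.subtype).exists_isCompl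
  obtain ⟨W₁, hW₁⟩ : ∃ W₁ : Submodule F V, W₁ = C.map W.subtype := ⟨_, rfl⟩
  have h1 : W₁ ≤ W := by
    rw [hW₁]
    exact Submodule.map_subtype_le W C
  have h2 : ((W ⊓ U).comap W.subtype).map W.subtype = W ⊓ U := by
    rw [Submodule.map_comap_subtype, ← inf_assoc, inf_idem]
  have h3 : (W ⊓ U) ⊔ W₁ = W := by
    rw [← h2, hW₁, ← Submodule.map_sup, hC.sup_eq_top, Submodule.map_subtype_top]
  have h4 : Disjoint (W ⊓ U) W₁ := by
    rw [← h2, hW₁]
    exact (Submodule.disjoint_map W.injective_subtype hC.disjoint)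
  have h5 : Disjoint U W₁ := by
    rw [Submodule.disjoint_def] at h4 ⊢
    exact fun x hxU hx => h4 x ⟨h1 hx, hxU⟩ hx
  obtain ⟨R, hR⟩ := (U ⊔ W₁).exists_isCompl
  refine ⟨W₁, W₁ ⊔ R, le_sup_left, ⟨?_, ?_⟩, h3, ?_⟩
  · exact h5.disjoint_sup_right_of_disjoint_sup_left hR.disjoint
  · rw [codisjoint_iff, ← sup_assoc]
    exact hR.sup_eq_top
  · have h6 := Submodule.finrank_sup_add_finrank_inf_eq (W ⊓ U) W₁
    rw [h3, h4.eq_bot, finrank_bot] at h6
    omega

theorem exists_equiv {F : Type} [Field F] {V : Type} [AddCommGroup V] [Module F V] [FiniteDimensional F V] (U W W' : Submodule F V)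
    (h : finrank F W = finrank F W') (h' : finrank F (W ⊓ U : Submodule F V) = finrank F (W' ⊓ U : Submodule F V)) :
    ∃ e : V ≃ₗ[F] V, U.map (e : V →ₗ[F] V) = U ∧ W.map (e : V →ₗ[F] V) = W' := by
  obtain ⟨W₁, Q, h1, h2, h3, h4⟩ := tra_cmp U W
  obtain ⟨W₁', Q', h1', h2', h3', h4'⟩ := tra_cmp U W'
  have hQ := Submodule.finrank_add_eq_of_isCompl h2
  have hQ' := Submodule.finrank_add_eq_of_isCompl h2'
  obtain ⟨eU, heU⟩ := tra_sub (rfl : finrank F U = finrank F U) ((W ⊓ U).comap U.subtype)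
    ((W' ⊓ U).comap U.subtype) (by
      rw [(Submodule.comapSubtypeEquivOfLe (inf_le_right : W ⊓ U ≤ U)).finrank_eq,
        (Submodule.comapSubtypeEquivOfLe (inf_le_right : W' ⊓ U ≤ U)).finrank_eq, h'])
  obtain ⟨eQ, heQ⟩ := tra_sub (by omega : finrank F Q = finrank F Q') (W₁.comap Q.subtype)
    (W₁'.comap Q'.subtype) (by
      rw [(Submodule.comapSubtypeEquivOfLe h1).finrank_eq,
        (Submodule.comapSubtypeEquivOfLe h1').finrank_eq]
      omega)
  obtain ⟨e, he1, he2⟩ := tra_glue h2 h2' eU eQ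
  refine ⟨e, ?_, ?_⟩
  · refine Submodule.eq_of_le_of_finrank_eq ?_ (LinearEquiv.finrank_map_eq e U)
    rintro _ ⟨x, hx, rfl⟩
    have h5 := he1 ⟨x, hx⟩
    show e x ∈ U
    rw [h5]
    exact Subtype.mem _
  · refine Submodule.eq_of_le_of_finrank_eq ?_ ((LinearEquiv.finrank_map_eq e W).trans h)
    rw [← h3, Submodule.map_sup, ← h3']
    refine sup_le_sup ?_ ?_
    · rintro _ ⟨x, hx, rfl⟩
      have h5 := he1 ⟨x, hx.2⟩
      show e x ∈ W' ⊓ U
      rw [h5]
      exact heU ⟨x, hx.2⟩ hx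
    · rintro _ ⟨x, hx, rfl⟩
      have h5 := he2 ⟨x, h1 hx⟩
      show e x ∈ W₁'
      rw [h5]
      exact heQ ⟨x, h1 hx⟩ hx

end Pool.Agent.H64.HV
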