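import Mathlib
import Pool.Agent.H64.HV.Tra
import Pool.Agent.H24.LSFinal

/-!
# Averages over the stabiliser of `U`

`map_null`: substitute `W' = W.map e` (a bijection of the subspaces, `T ≤ W ↔ T.map e ≤ W.map e`, `finrank (T.map e) = finrank T`). `map_sum`: the
same bijection. `avg_null`: exchange the sums, `map_null`. `avg_inv`: for `W`, `W'` take `e₀` from `exists_equiv`, `W.map e₀ = W'`, and substitute
`e ↦ e₀.trans e` in the sum. `avg_zero`: `W.map e` has the same two dimensions as `W` (`U.map e = U`, `(W ⊓ U).map e = W.map e ⊓ U`). `avg_pos`: all terms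
are `≥ 0` (`c (W₀.map e)` is `0` unless `W₀.map e = W₀`) and the term of `e = refl` is `c W₀ > 0`. `avg_orth`: exchange the sums.
-/

set_option autoImplicit false
set_option linter.unusedSectionVars false

open Module
open scoped Classical
open Pool.Agent.H24.LS

namespace Pool.Agent.H64.HV

variable {F : Type} [Field F] [Finite F] {V : Type} [AddCommGroup V] [Module F V] [Finite V]

noncomputable instance instFintypeAut : Fintype (V ≃ₗ[F] V) :=
  haveI : Finite (V ≃ₗ[F] V) := Finite.of_injective (fun e : V ≃ₗ[F] V => (e : V → V)) DFunLike.coe_injective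
  Fintype.ofFinite _

/-- functions which depend only on the dimensions of `W` and `W ⊓ U` -/
def InvF (U : Submodule F V) (f : Submodule F V → ℤ) : Prop :=
  ∀ W W' : Submodule F V, finrank F W = finrank F W' →
    finrank F (W ⊓ U : Submodule F V) = finrank F (W' ⊓ U : Submodule F V) → f W = f W'

/-- the average (sum) over the stabiliser of `U` -/
noncomputable def avg (U : Submodule F V) (c : Submodule F V → ℤ) (W : Submodule F V) : ℤ :=
  ∑ e : V ≃ₗ[F] V, if U.map (e : V →ₗ[F] V) = U then c (W.map (e : V →ₗ[F] V)) else 0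

private theorem gp_symm (e : V ≃ₗ[F] V) (W : Submodule F V) :
    (W.map (e : V →ₗ[F] V)).map (e.symm : V →ₗ[F] V) = W := by
  have h : (e.symm : V →ₗ[F] V) ∘ₗ (e : V →ₗ[F] V) = LinearMap.id := by
    ext x
    simp
  rw [← Submodule.map_comp, h, Submodule.map_id]

private theorem gp_symm' (e : V ≃ₗ[F] V) (W : Submodule F V) :
    (W.map (e.symm : V →ₗ[F] V)).map (e : V →ₗ[F] V) = W := by
  have h : (e : V →ₗ[F] V) ∘ₗ (e.symm : V →ₗ[F] V) = LinearMap.id := by
    ext x
    simp
  rw [← Submodule.map_comp, h, Submodule.map_id]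

private def gpE (e : V ≃ₗ[F] V) : Submodule F V ≃ Submodule F V where
  toFun W := W.map (e : V →ₗ[F] V)
  invFun W := W.map (e.symm : V →ₗ[F] V)
  left_inv W := gp_symm e W
  right_inv W := gp_symm' e W

private def gpT (e₀ : V ≃ₗ[F] V) : (V ≃ₗ[F] V) ≃ (V ≃ₗ[F] V) where
  toFun e := e₀.trans e
  invFun e := e₀.symm.trans e
  left_inv e := by
    ext x
    simp
  right_inv e := by
    ext x
    simp

theorem map_sum {M : Type} [AddCommMonoid M] (c : Submodule F V → M) (e : V ≃ₗ[F] V) :
    ∑ W : Submodule F V, c (W.map (e : V →ₗ[F] V)) = ∑ W : Submodule F V, c W :=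
  (gpE e).sum_comp c

theorem map_null {s : ℕ} {c : Submodule F V → ℤ} (hc : Null s c) (e : V ≃ₗ[F] V) :
    Null s (fun W => c (W.map (e : V →ₗ[F] V))) := by
  intro T hT
  have h1 : ∀ W : Submodule F V, (if T ≤ W then c (W.map (e : V →ₗ[F] V)) else 0) =
      (fun W' => if T.map (e : V →ₗ[F] V) ≤ W' then c W' else 0) (W.map (e : V →ₗ[F] V)) := by
    intro W
    have h2 : T.map (e : V →ₗ[F] V) ≤ W.map (e : V →ₗ[F] V) ↔ T ≤ W :=
      Submodule.map_le_map_iff_of_injective e.injective T W
    simp only [h2]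
  rw [Finset.sum_congr rfl fun W _ => h1 W,
    map_sum (fun W' => if T.map (e : V →ₗ[F] V) ≤ W' then c W' else 0) e]
  refine hc _ ?_
  rw [LinearEquiv.finrank_map_eq]
  exact hT

theorem avg_null (U : Submodule F V) {s : ℕ} {c : Submodule F V → ℤ} (hc : Null s c) : Null s (avg U c) := by
  intro T hT
  have h1 : ∀ W : Submodule F V, (if T ≤ W then avg U c W else 0) =
      ∑ e : V ≃ₗ[F] V, if U.map (e : V →ₗ[F] V) = U then
        (if T ≤ W then c (W.map (e : V →ₗ[F] V)) else 0) else 0 := by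
    intro W
    unfold avg
    split_ifs with h
    · rfl
    · simp
  rw [Finset.sum_congr rfl fun W _ => h1 W, Finset.sum_comm]
  refine Finset.sum_eq_zero fun e _ => ?_
  split_ifs with h
  · exact map_null hc e T hT
  · simp

theorem avg_inv (U : Submodule F V) (c : Submodule F V → ℤ) : InvF U (avg U c) := by
  intro W W' h1 h2
  obtain ⟨e₀, h3, h4⟩ := exists_equiv U W W' h1 h2
  unfold avg
  rw [← (gpT e₀).sum_comp]
  refine Finset.sum_congr rfl fun e _ => ?_
  have h5 : ∀ X : Submodule F V, X.map ((gpT e₀ e : V ≃ₗ[F] V) : V →ₗ[F] V) =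
      (X.map (e₀ : V →ₗ[F] V)).map (e : V →ₗ[F] V) := by
    intro X
    rw [← Submodule.map_comp]
    rfl
  rw [h5, h5, h3, h4]

private theorem gp_dim (U W : Submodule F V) (e : V ≃ₗ[F] V) (he : U.map (e : V →ₗ[F] V) = U) :
    finrank F (W.map (e : V →ₗ[F] V)) = finrank F W ∧
      finrank F (W.map (e : V →ₗ[F] V) ⊓ U : Submodule F V) = finrank F (W ⊓ U : Submodule F V) := by
  refine ⟨LinearEquiv.finrank_map_eq e W, ?_⟩
  have h1 : W.map (e : V →ₗ[F] V) ⊓ U = (W ⊓ U).map (e : V →ₗ[F] V) := by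
    rw [Submodule.map_inf _ e.injective, he]
  rw [h1]
  exact LinearEquiv.finrank_map_eq e _

theorem avg_zero (U : Submodule F V) (c : Submodule F V → ℤ) (W : Submodule F V)
    (h : ∀ W' : Submodule F V, finrank F W' = finrank F W →
      finrank F (W' ⊓ U : Submodule F V) = finrank F (W ⊓ U : Submodule F V) → c W' = 0) : avg U c W = 0 := by
  unfold avg
  refine Finset.sum_eq_zero fun e _ => ?_
  split_ifs with he
  · obtain ⟨h1, h2⟩ := gp_dim U W e he
    exact h _ h1 h2
  · rfl

theorem avg_pos (U : Submodule F V) (c : Submodule F V → ℤ) (W₀ : Submodule F V) (h₀ : 0 < c W₀)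
    (h : ∀ W' : Submodule F V, W' ≠ W₀ → finrank F W' = finrank F W₀ →
      finrank F (W' ⊓ U : Submodule F V) = finrank F (W₀ ⊓ U : Submodule F V) → c W' = 0) : 0 < avg U c W₀ := by
  unfold avg
  refine Finset.sum_pos' (fun e _ => ?_) ⟨LinearEquiv.refl F V, Finset.mem_univ _, ?_⟩
  · split_ifs with he
    · obtain ⟨h1, h2⟩ := gp_dim U W₀ e he
      by_cases h3 : W₀.map (e : V →ₗ[F] V) = W₀
      · rw [h3]
        exact h₀.le
      · rw [h _ h3 h1 h2]
    · exact le_refl _
  · have h1 : ∀ X : Submodule F V, X.map ((LinearEquiv.refl F V : V ≃ₗ[F] V) : V →ₗ[F] V) = X := by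
      intro X
      exact Submodule.map_id X
    rw [h1, h1, if_pos rfl]
    exact h₀

theorem avg_orth (U : Submodule F V) (c : Submodule F V → ℤ) (η : Submodule F V → ℝ)
    (h : ∀ e : V ≃ₗ[F] V, ∑ W : Submodule F V, (c (W.map (e : V →ₗ[F] V)) : ℝ) * η W = 0) :
    ∑ W : Submodule F V, (avg U c W : ℝ) * η W = 0 := by
  have h1 : ∀ W : Submodule F V, (avg U c W : ℝ) * η W =
      ∑ e : V ≃ₗ[F] V, if U.map (e : V →ₗ[F] V) = U then
        (c (W.map (e : V →ₗ[F] V)) : ℝ) * η W else 0 := by
    intro W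
    unfold avg
    rw [Int.cast_sum, Finset.sum_mul]
    refine Finset.sum_congr rfl fun e _ => ?_
    split_ifs with he
    · rfl
    · rw [Int.cast_zero, zero_mul]
  rw [Finset.sum_congr rfl fun W _ => h1 W, Finset.sum_comm]
  refine Finset.sum_eq_zero fun e _ => ?_
  split_ifs with he
  · exact h e
  · simp

end Pool.Agent.H64.HV
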