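import Mathlib
import Pool.Agent.H24.LSFinal

/-!
# MP_679a49_co, halvings for `6 t < k < v - 6 t`: linearised polynomials

`K / F` is an extension of finite fields, `q = Nat.card F`. `fr i` is `x ↦ x ^ (q ^ i)`, `s0 τ a` is
`x ↦ ∑ a i x ^ (q ^ i)` (`i < τ`), `s1 τ a` is `x ↦ x ^ (q ^ τ) + s0 τ a x`; all are `F`-linear maps `K → K`.
-/

set_option autoImplicit false

open Module
open scoped Classical

namespace Pool.Agent.H64.HV

section

variable (F : Type) [Field F] [Finite F] {K : Type} [Field K] [Algebra F K] [Finite K]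

/-- `x ↦ x ^ (q ^ i)` -/
noncomputable def fr (K : Type) [Field K] [Algebra F K] [Finite K] (i : ℕ) : K →ₗ[F] K :=
  letI : Fintype F := Fintype.ofFinite F
  ((FiniteField.frobeniusAlgHom F K) ^ i).toLinearMap

theorem fr_apply (i : ℕ) (x : K) : fr F K i x = x ^ (Nat.card F ^ i) := by
  letI : Fintype F := Fintype.ofFinite F
  show ((FiniteField.frobeniusAlgHom F K) ^ i) x = _
  rw [AlgHom.coe_pow, FiniteField.coe_frobeniusAlgHom, pow_iterate, Nat.card_eq_fintype_card]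

/-- `x ↦ ∑ a i x ^ (q ^ i)` -/
noncomputable def s0 (τ : ℕ) (a : Fin τ → K) : K →ₗ[F] K :=
  ∑ i : Fin τ, (LinearMap.mulLeft F (a i)) ∘ₗ fr F K i

theorem s0_apply (τ : ℕ) (a : Fin τ → K) (x : K) :
    s0 F τ a x = ∑ i : Fin τ, a i * x ^ (Nat.card F ^ (i : ℕ)) := by
  unfold s0
  rw [LinearMap.sum_apply]
  apply Finset.sum_congr rfl
  intro i _
  rw [LinearMap.comp_apply, fr_apply, LinearMap.mulLeft_apply]

/-- `x ↦ x ^ (q ^ τ) + ∑ a i x ^ (q ^ i)` -/
noncomputable def s1 (τ : ℕ) (a : Fin τ → K) : K →ₗ[F] K := fr F K τ + s0 F τ a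

theorem s1_apply (τ : ℕ) (a : Fin τ → K) (x : K) :
    s1 F τ a x = x ^ (Nat.card F ^ τ) + ∑ i : Fin τ, a i * x ^ (Nat.card F ^ (i : ℕ)) := by
  unfold s1
  rw [LinearMap.add_apply, fr_apply, s0_apply]

theorem s0_sub (τ : ℕ) (a b : Fin τ → K) : s0 F τ (a - b) = s0 F τ a - s0 F τ b := by
  ext x
  rw [LinearMap.sub_apply, s0_apply, s0_apply, s0_apply, ← Finset.sum_sub_distrib]
  apply Finset.sum_congr rfl
  intro i _
  rw [Pi.sub_apply, sub_mul]

theorem s0_add (τ : ℕ) (a b : Fin τ → K) : s0 F τ (a + b) = s0 F τ a + s0 F τ b := by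
  ext x
  rw [LinearMap.add_apply, s0_apply, s0_apply, s0_apply, ← Finset.sum_add_distrib]
  apply Finset.sum_congr rfl
  intro i _
  rw [Pi.add_apply, add_mul]

theorem s0_zero (τ : ℕ) : s0 F τ (0 : Fin τ → K) = 0 := by
  ext x
  rw [s0_apply]
  simp

end

section

variable {F : Type} [Field F] {V Y K : Type} [AddCommGroup V] [Module F V] [AddCommGroup Y] [Module F Y]
  [AddCommGroup K] [Module F K]

/-- the block of `B : K → Y`: all `z` with `π z = B (p z)` -/
noncomputable def blk (π : V →ₗ[F] Y) (p : V →ₗ[F] K) (B : K →ₗ[F] Y) : Submodule F V :=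
  LinearMap.ker (π - B ∘ₗ p)

theorem mem_blk (π : V →ₗ[F] Y) (p : V →ₗ[F] K) (B : K →ₗ[F] Y) (z : V) : z ∈ blk π p B ↔ π z = B (p z) := by
  unfold blk
  rw [LinearMap.mem_ker, LinearMap.sub_apply, LinearMap.comp_apply, sub_eq_zero]

theorem blk_zero (π : V →ₗ[F] Y) (p : V →ₗ[F] K) : blk π p 0 = LinearMap.ker π := by
  unfold blk
  rw [LinearMap.zero_comp, sub_zero]

end

end Pool.Agent.H64.HV
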