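import Mathlib
import Pool.Agent.H64.HV.Lin

/-!
# Dimension of the blocks

`finrank_blk`: `π - B ∘ p` is surjective: for `y` choose `z` with `π z = y`, `p z = 0`; rank-nullity. `blk_inj`: for `κ ∈ K` choose `z₀` with
`p z₀ = κ` and `π z₀ = B κ`; then `z₀ ∈ blk π p B = blk π p B'`, so `B κ = π z₀ = B' κ`. `blk_lt`: if `z ∈ ker π ⊓ U` whenever `z ∈ blk ⊓ U`, and
some element of `ker π ⊓ U` is not in the block, then the dimension is smaller (`Submodule.finrank_lt_finrank_of_lt`): let `L` be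
injective, `range L ⊓ U.map π = ⊥`, `P ≤ ker π ⊓ U`, `P.map p = ⊤` and `A ≠ 0`. For `z ∈ blk π p (L ∘ A) ⊓ U`: `π z = L (A (p z))` is in both
spaces, so `π z = 0` and `A (p z) = 0`. Choose `κ` with `A κ ≠ 0` and `z ∈ P` with `p z = κ`: `z ∈ ker π ⊓ U`, `z ∉ blk`.
-/

set_option autoImplicit false

open Module
open scoped Classical

namespace Pool.Agent.H64.HV

variable {F : Type} [Field F] [Finite F] {V Y K : Type} [AddCommGroup V] [Module F V] [Finite V] [AddCommGroup Y]
  [Module F Y] [Finite Y] [AddCommGroup K] [Module F K] [Finite K]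

theorem finrank_blk (π : V →ₗ[F] Y) (p : V →ₗ[F] K) (hj : Function.Surjective (π.prod p)) (B : K →ₗ[F] Y) :
    finrank F (blk π p B) + finrank F Y = finrank F V := by
  have : Module.Finite F V := Module.Finite.of_finite
  have hs : Function.Surjective (π - B ∘ₗ p) := by
    intro y
    obtain ⟨z, hz⟩ := hj (y, 0)
    simp only [LinearMap.prod_apply, Function.prod_apply, Prod.mk.injEq] at hz
    refine ⟨z, ?_⟩
    rw [LinearMap.sub_apply, LinearMap.comp_apply, hz.1, hz.2, map_zero, sub_zero]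
  have h1 := LinearMap.finrank_range_add_finrank_ker (π - B ∘ₗ p)
  rw [LinearMap.range_eq_top.mpr hs, finrank_top] at h1
  unfold blk
  omega

theorem blk_inj (π : V →ₗ[F] Y) (p : V →ₗ[F] K) (hj : Function.Surjective (π.prod p)) {B B' : K →ₗ[F] Y}
    (h : blk π p B = blk π p B') : B = B' := by
  ext κ
  obtain ⟨z, hz⟩ := hj (B κ, κ)
  simp only [LinearMap.prod_apply, Function.prod_apply, Prod.mk.injEq] at hz
  have h1 : z ∈ blk π p B := by
    rw [mem_blk, hz.1, hz.2]
  rw [h, mem_blk, hz.1, hz.2] at h1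
  exact h1

theorem blk_lt (π : V →ₗ[F] Y) (p : V →ₗ[F] K) (L : K →ₗ[F] Y) (hL : Function.Injective L) (U P : Submodule F V)
    (hU : LinearMap.range L ⊓ U.map π = ⊥) (hP : P ≤ LinearMap.ker π ⊓ U) (hP' : P.map p = ⊤) (A : K →ₗ[F] K) (hA : A ≠ 0) :
    finrank F (blk π p (L ∘ₗ A) ⊓ U : Submodule F V) < finrank F (LinearMap.ker π ⊓ U : Submodule F V) := by
  have : Module.Finite F V := Module.Finite.of_finite
  apply Submodule.finrank_lt_finrank_of_lt
  obtain ⟨κ, hκ⟩ : ∃ κ, A κ ≠ 0 := by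
    by_contra hcon
    push Not at hcon
    exact hA (LinearMap.ext fun x => by rw [hcon x, LinearMap.zero_apply])
  obtain ⟨z, hzP, hzκ⟩ : κ ∈ P.map p := by
    rw [hP']
    trivial
  refine lt_of_le_of_ne ?_ ?_
  · intro w hw
    obtain ⟨hw1, hw2⟩ := Submodule.mem_inf.mp hw
    rw [mem_blk, LinearMap.comp_apply] at hw1
    have h1 : π w ∈ LinearMap.range L ⊓ U.map π := by
      refine Submodule.mem_inf.mpr ⟨?_, Submodule.mem_map_of_mem hw2⟩
      rw [hw1]
      exact LinearMap.mem_range_self L _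
    rw [hU, Submodule.mem_bot] at h1
    exact Submodule.mem_inf.mpr ⟨LinearMap.mem_ker.mpr h1, hw2⟩
  · intro he
    have h1 := hP hzP
    rw [← he] at h1
    have h2 := (Submodule.mem_inf.mp h1).1
    have h3 := LinearMap.mem_ker.mp (Submodule.mem_inf.mp (hP hzP)).1
    rw [mem_blk, LinearMap.comp_apply, h3, hzκ] at h2
    have h4 : L (A κ) = L 0 := by
      rw [map_zero, ← h2]
    exact hκ (hL h4)

end Pool.Agent.H64.HV
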