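import Mathlib
import Pool.Agent.H64.HV.Lin

/-!
# Kernels of linearised polynomials

`s0_ker`: let `a ≠ 0`; the polynomial `P = ∑ C (a i) * X ^ (q ^ i)` is not zero (the exponents `q ^ i` are different, `q ≥ 2`),
its degree is at most `q ^ (τ - 1)` (`τ ≥ 1`), and all elements of the kernel are roots; so `q ^ (finrank ker) = card ker ≤ q ^ (τ - 1)`
(`Polynomial.card_roots'`, `Module.natCard_eq_pow_finrank`). `s1_ker`: the same with the monic polynomial `X ^ (q ^ τ) + ...`.
-/

set_option autoImplicit false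

open Module
open scoped Classical

namespace Pool.Agent.H64.HV

variable (F : Type) [Field F] [Finite F] {K : Type} [Field K] [Algebra F K] [Finite K]

private theorem kr_gen (f : K →ₗ[F] K) (P : Polynomial K) (hP : P ≠ 0) (m : ℕ)
    (hd : P.natDegree ≤ Nat.card F ^ m) (hf : ∀ x, f x = P.eval x) :
    finrank F (LinearMap.ker f) ≤ m := by
  have h1 : Nat.card (LinearMap.ker f) = Nat.card F ^ finrank F (LinearMap.ker f) :=
    Module.natCard_eq_pow_finrank
  have h2 : Nat.card (LinearMap.ker f) ≤ P.natDegree := by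
    have h3 : (LinearMap.ker f : Set K) ⊆ (P.roots.toFinset : Set K) := by
      intro x hx
      have hx' : f x = 0 := hx
      rw [hf x] at hx'
      simp only [Finset.mem_coe, Multiset.mem_toFinset]
      exact (Polynomial.mem_roots hP).2 hx'
    have h4 : Nat.card (LinearMap.ker f) ≤ P.roots.toFinset.card := by
      have h5 := Set.ncard_le_ncard h3 (Finset.finite_toSet _)
      rw [Set.ncard_coe_finset] at h5
      exact h5
    exact h4.trans ((Multiset.toFinset_card_le _).trans (Polynomial.card_roots' P))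
  have hq : 1 < Nat.card F := Finite.one_lt_card
  rw [h1] at h2
  exact (Nat.pow_le_pow_iff_right hq).1 (h2.trans hd)

private theorem kr_coeff (τ : ℕ) (a : Fin τ → K) (m : ℕ) :
    (∑ i : Fin τ, Polynomial.C (a i) * Polynomial.X ^ (Nat.card F ^ (i : ℕ))).coeff (Nat.card F ^ m) =
      ∑ i : Fin τ, if m = (i : ℕ) then a i else 0 := by
  have hq : 1 < Nat.card F := Finite.one_lt_card
  rw [Polynomial.finsetSum_coeff]
  refine Finset.sum_congr rfl fun i _ => ?_
  rw [Polynomial.coeff_C_mul_X_pow]
  by_cases h : m = (i : ℕ)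
  · rw [h, if_pos rfl, if_pos rfl]
  · rw [if_neg h, if_neg]
    intro h1
    exact h (Nat.pow_right_injective hq h1)

private theorem kr_deg (τ : ℕ) (a : Fin τ → K) (m : ℕ) (hm : τ ≤ m + 1) :
    (∑ i : Fin τ, Polynomial.C (a i) * Polynomial.X ^ (Nat.card F ^ (i : ℕ))).natDegree ≤
      Nat.card F ^ m := by
  have hq : 1 < Nat.card F := Finite.one_lt_card
  refine Polynomial.natDegree_sum_le_of_forall_le _ _ fun i _ => ?_
  refine (Polynomial.natDegree_C_mul_X_pow_le _ _).trans ?_
  exact Nat.pow_le_pow_right hq.le (by omega)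

theorem s0_ker (τ : ℕ) (a : Fin τ → K) (ha : a ≠ 0) : finrank F (LinearMap.ker (s0 F τ a)) < τ := by
  obtain ⟨i0, hi0⟩ : ∃ i, a i ≠ 0 := by
    by_contra h
    push Not at h
    exact ha (funext h)
  have hτ : 0 < τ := lt_of_le_of_lt (Nat.zero_le _) i0.2
  have hP : (∑ i : Fin τ, Polynomial.C (a i) * Polynomial.X ^ (Nat.card F ^ (i : ℕ))) ≠ 0 := by
    intro h
    have h1 := kr_coeff F τ a i0
    rw [h, Polynomial.coeff_zero] at h1
    have h2 : ∑ i : Fin τ, (if (i0 : ℕ) = (i : ℕ) then a i else 0) = a i0 := by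
      rw [Finset.sum_eq_single i0]
      · simp
      · intro b _ hb
        rw [if_neg]
        intro h3
        exact hb (Fin.ext h3.symm)
      · intro h3
        exact absurd (Finset.mem_univ _) h3
    rw [h2] at h1
    exact hi0 h1.symm
  have h := kr_gen F (s0 F τ a) _ hP (τ - 1) (kr_deg F τ a (τ - 1) (by omega)) (fun x => by
    rw [s0_apply, Polynomial.eval_finsetSum]
    refine Finset.sum_congr rfl fun i _ => ?_
    simp)
  omega

theorem s1_ker (τ : ℕ) (a : Fin τ → K) : finrank F (LinearMap.ker (s1 F τ a)) ≤ τ := by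
  have hP : Polynomial.X ^ (Nat.card F ^ τ) +
      (∑ i : Fin τ, Polynomial.C (a i) * Polynomial.X ^ (Nat.card F ^ (i : ℕ))) ≠ 0 := by
    intro h
    have h1 := congrArg (fun P => Polynomial.coeff P (Nat.card F ^ τ)) h
    simp only [Polynomial.coeff_add, Polynomial.coeff_X_pow_self, Polynomial.coeff_zero,
      kr_coeff] at h1
    rw [Finset.sum_eq_zero, add_zero] at h1
    · exact one_ne_zero h1
    · intro i _
      rw [if_neg]
      have := i.2
      omega
  refine kr_gen F (s1 F τ a) _ hP τ ?_ (fun x => ?_)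
  · refine (Polynomial.natDegree_add_le _ _).trans (max_le ?_ ?_)
    · exact Polynomial.natDegree_X_pow_le _
    · exact kr_deg F τ a τ (by omega)
  · rw [s1_apply, Polynomial.eval_add, Polynomial.eval_pow, Polynomial.eval_X, Polynomial.eval_finsetSum]
    congr 1
    refine Finset.sum_congr rfl fun i _ => ?_
    simp

end Pool.Agent.H64.HV
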