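import Mathlib
import Pool.Agent.H64.HV.Ker

/-!
# Linearised polynomials with prescribed restriction

First `finrank T = τ`: the map `a ↦ (s0 F τ a).domRestrict T` from `Fin τ → K` to `T →ₗ[F] K` is injective: if `s0 a` and `s0 b` agree
on `T` then `s0 (a - b)` vanishes on `T` (`s0_sub`), so its kernel has dimension at least `τ`, so `a = b` (`s0_ker`). Both sets
have the same number of elements: `card K ^ τ` (choose a basis of `T`: `T →ₗ[F] K ≃ (Fin τ → K)`, `Module.Basis.constr` or
`Module.Basis.equivFun` and `LinearMap.toMatrix`; or compare `finrank F`). So it is surjective (`Finite.injective_iff_surjective_of_equiv` or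
`Function.Injective.bijective_of_nat_card_le`). In general choose `T ≤ T'` with `finrank T' = τ` (as `τ ≤ finrank K`) and extend `B` to `T'`
(`LinearMap.exists_extend`).
-/

set_option autoImplicit false
set_option linter.unusedSectionVars false

open Module
open scoped Classical

namespace Pool.Agent.H64.HV

variable (F : Type) [Field F] [Finite F] {K : Type} [Field K] [Algebra F K] [Finite K]

private theorem sur_aux (τ : ℕ) (T : Submodule F K) (hT : finrank F T = τ) (B : T →ₗ[F] K) :
    ∃ a : Fin τ → K, ∀ x : T, s0 F τ a x = B x := by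
  have hfin : FiniteDimensional F K := Module.Finite.of_finite
  have hinj : Function.Injective (fun a : Fin τ → K => (s0 F τ a).domRestrict T) := by
    intro a b hab
    by_contra hne
    have h1 : a - b ≠ 0 := sub_ne_zero.mpr hne
    have h2 := s0_ker F τ (a - b) h1
    have h3 : T ≤ LinearMap.ker (s0 F τ (a - b)) := by
      intro x hx
      rw [LinearMap.mem_ker, s0_sub, LinearMap.sub_apply, sub_eq_zero]
      exact LinearMap.congr_fun hab ⟨x, hx⟩
    have h4 := Submodule.finrank_mono h3
    omega
  let e : (Fin τ → K) ≃ (T →ₗ[F] K) :=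
    ((finBasisOfFinrankEq F T hT).constr F (M' := K)).toEquiv
  have hsurj := (Finite.injective_iff_surjective_of_equiv e).mp hinj
  obtain ⟨a, ha⟩ := hsurj B
  exact ⟨a, fun x => LinearMap.congr_fun ha x⟩

private theorem sur_ext (T : Submodule F K) (d : ℕ) : finrank F T ≤ d → d ≤ finrank F K →
    ∃ T' : Submodule F K, T ≤ T' ∧ finrank F T' = d := by
  have hfin : FiniteDimensional F K := Module.Finite.of_finite
  intro h
  induction d, h using Nat.le_induction with
  | base => intro _; exact ⟨T, le_rfl, rfl⟩
  | succ d hd ih =>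
    intro hK
    obtain ⟨T', h1, h2⟩ := ih (by omega)
    have h3 : T' ≠ ⊤ := by
      intro h
      rw [h, finrank_top] at h2
      omega
    obtain ⟨v, -, hv⟩ := SetLike.exists_of_lt (lt_top_iff_ne_top.mpr h3)
    refine ⟨T' ⊔ Submodule.span F {v}, h1.trans le_sup_left, ?_⟩
    rw [Submodule.finrank_sup_span_singleton hv, h2]

theorem s0_surj (τ : ℕ) (T : Submodule F K) (hT : finrank F T ≤ τ) (hτ : τ ≤ finrank F K) (B : T →ₗ[F] K) :
    ∃ a : Fin τ → K, ∀ x : T, s0 F τ a x = B x := by
  have hfin : FiniteDimensional F K := Module.Finite.of_finite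
  obtain ⟨T', hTT', hT'⟩ := sur_ext F T τ hT hτ
  obtain ⟨g, hg⟩ := LinearMap.exists_extend B
  obtain ⟨a, ha⟩ := sur_aux F τ T' hT' (g.domRestrict T')
  refine ⟨a, fun x => ?_⟩
  have h1 := ha ⟨x, hTT' x.2⟩
  rw [h1, ← hg]
  rfl

end Pool.Agent.H64.HV
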