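import Mathlib
import Pool.Agent.H64.HV.Sur

/-!
# All fibres of the restriction maps have the same size

`fib_eq`: by `s0_surj` choose `c` with `s0 c = B` on `T` and `c'` with `s0 c' = B'` on `T`; then `a ↦ a - c + c'` is a bijection between the two sets
(`s0_sub`, `s0_add`). `fib_s1`: `s1 a = B` on `T` iff `s0 a = B - fr τ` on `T`; so this set is the fibre of `s0` over `B - (fr τ).domRestrict T`;
use `fib_eq`.
-/

set_option autoImplicit false

open Module
open scoped Classical

namespace Pool.Agent.H64.HV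

variable (F : Type) [Field F] [Finite F] {K : Type} [Field K] [Algebra F K] [Finite K]

private theorem fib_le (τ : ℕ) (T : Submodule F K) (hT : finrank F T ≤ τ) (hτ : τ ≤ finrank F K) (B B' : T →ₗ[F] K) :
    Nat.card {a : Fin τ → K // ∀ x : T, s0 F τ a x = B x} ≤ Nat.card {a : Fin τ → K // ∀ x : T, s0 F τ a x = B' x} := by
  obtain ⟨c, hc⟩ := s0_surj F τ T hT hτ B
  obtain ⟨c', hc'⟩ := s0_surj F τ T hT hτ B'
  refine Nat.card_le_card_of_injective
    (fun a : {a : Fin τ → K // ∀ x : T, s0 F τ a x = B x} =>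
      (⟨a.1 - c + c', fun x => by
        rw [s0_add, s0_sub, LinearMap.add_apply, LinearMap.sub_apply, a.2 x, hc x, hc' x,
          sub_self, zero_add]⟩ : {a : Fin τ → K // ∀ x : T, s0 F τ a x = B' x})) ?_
  intro a b hab
  have h1 := congrArg Subtype.val hab
  simp only at h1
  exact Subtype.ext (sub_left_injective (add_left_injective _ h1))

theorem fib_eq (τ : ℕ) (T : Submodule F K) (hT : finrank F T ≤ τ) (hτ : τ ≤ finrank F K) (B B' : T →ₗ[F] K) :
    Nat.card {a : Fin τ → K // ∀ x : T, s0 F τ a x = B x} = Nat.card {a : Fin τ → K // ∀ x : T, s0 F τ a x = B' x} :=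
  le_antisymm (fib_le F τ T hT hτ B B') (fib_le F τ T hT hτ B' B)

theorem fib_s1 (τ : ℕ) (T : Submodule F K) (hT : finrank F T ≤ τ) (hτ : τ ≤ finrank F K) (B B' : T →ₗ[F] K) :
    Nat.card {a : Fin τ → K // ∀ x : T, s1 F τ a x = B x} = Nat.card {a : Fin τ → K // ∀ x : T, s0 F τ a x = B' x} := by
  rw [← fib_eq F τ T hT hτ (B - (fr F K τ).domRestrict T) B']
  refine Nat.card_congr (Equiv.subtypeEquivRight fun a => forall_congr' fun x => ?_)
  unfold s1
  rw [LinearMap.add_apply, LinearMap.sub_apply, LinearMap.domRestrict_apply, eq_sub_iff_add_eq,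
    add_comm]

end Pool.Agent.H64.HV
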