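import Mathlib
import Pool.Agent.H64.HV.Fib

/-!
# The same number of blocks of both codes through `T`

Let `T₀ = T.map p` (`finrank T₀ ≤ finrank T ≤ τ`). `T ≤ blk π p (L ∘ A)` iff `π z = L (A (p z))` for all `z ∈ T`; this depends only on the
restriction `B` of `A` to `T₀`. So both numbers are the sum over all `B : T₀ →ₗ[F] K` with `∀ z ∈ T, π z = L (B ⟨p z, _⟩)` of the number of `a` with
restriction `B` (`Finite` sigma type: `{a // T ≤ blk ..} ≃ Σ B : {B // cond B}, {a // ∀ x, s0 a x = B x}`, `Nat.card_sigma`; or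
`Finset.card_eq_sum_card_fiberwise`); by `fib_eq`, `fib_s1` all these numbers are equal to the same number.
-/

set_option autoImplicit false
set_option linter.unusedSectionVars false

open Module
open scoped Classical

namespace Pool.Agent.H64.HV

variable (F : Type) [Field F] [Finite F] {K : Type} [Field K] [Algebra F K] [Finite K]
  {V Y : Type} [AddCommGroup V] [Module F V] [Finite V] [AddCommGroup Y] [Module F Y] [Finite Y]

private theorem cnt_aux (τ : ℕ) (π : V →ₗ[F] Y) (p : V →ₗ[F] K) (L : K →ₗ[F] Y) (T : Submodule F V)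
    (s : (Fin τ → K) → (K →ₗ[F] K)) (N : ℕ)
    (hN : ∀ B : T.map p →ₗ[F] K, Nat.card {a : Fin τ → K // ∀ x : T.map p, s a x = B x} = N) :
    Nat.card {a : Fin τ → K // T ≤ blk π p (L ∘ₗ s a)} =
      Nat.card {B : T.map p →ₗ[F] K //
        ∀ z (hz : z ∈ T), π z = L (B ⟨p z, Submodule.mem_map_of_mem hz⟩)} * N := by
  have hfV : Finite (T.map p →ₗ[F] K) := by
    refine Finite.of_injective (fun B : T.map p →ₗ[F] K => (B : T.map p → K)) ?_
    exact DFunLike.coe_injective
  let f : {a : Fin τ → K // T ≤ blk π p (L ∘ₗ s a)} → {B : T.map p →ₗ[F] K //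
        ∀ z (hz : z ∈ T), π z = L (B ⟨p z, Submodule.mem_map_of_mem hz⟩)} := fun a =>
    ⟨(s a.1).domRestrict (T.map p), fun z hz => by
      have h1 := (mem_blk π p _ z).1 (a.2 hz)
      exact h1⟩
  have hfib : ∀ y, Nat.card {x // f x = y} = N := by
    intro y
    rw [← hN y.1]
    refine Nat.card_congr
      { toFun := fun x => ⟨x.1.1, fun u => ?_⟩
        invFun := fun a => ⟨⟨a.1, fun z hz => ?_⟩, ?_⟩
        left_inv := fun x => rfl
        right_inv := fun a => rfl }
    · have h1 := LinearMap.congr_fun (congrArg Subtype.val x.2) u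
      exact h1
    · rw [mem_blk]
      have h2 := a.2 ⟨p z, Submodule.mem_map_of_mem hz⟩
      rw [y.2 z hz, ← h2]
      rfl
    · apply Subtype.ext
      ext u
      exact a.2 u
  have := Fintype.ofFinite {B : T.map p →ₗ[F] K //
        ∀ z (hz : z ∈ T), π z = L (B ⟨p z, Submodule.mem_map_of_mem hz⟩)}
  rw [← Nat.card_congr (Equiv.sigmaFiberEquiv f), Nat.card_sigma, Finset.sum_congr rfl fun y _ => hfib y,
    Finset.sum_const, Finset.card_univ, smul_eq_mul, Nat.card_eq_fintype_card]

theorem cnt_eq (τ : ℕ) (hτ : τ ≤ finrank F K) (π : V →ₗ[F] Y) (p : V →ₗ[F] K) (L : K →ₗ[F] Y) (T : Submodule F V)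
    (hT : finrank F T ≤ τ) :
    Nat.card {a : Fin τ → K // T ≤ blk π p (L ∘ₗ s0 F τ a)} = Nat.card {a : Fin τ → K // T ≤ blk π p (L ∘ₗ s1 F τ a)} := by
  have hfin : FiniteDimensional F V := Module.Finite.of_finite
  have h1 : finrank F (T.map p) ≤ τ := (Submodule.finrank_map_le p T).trans hT
  rw [cnt_aux F τ π p L T (s0 F τ) _ fun B => fib_eq F τ (T.map p) h1 hτ B 0,
    cnt_aux F τ π p L T (s1 F τ) _ fun B => fib_s1 F τ (T.map p) h1 hτ B 0]

end Pool.Agent.H64.HV
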