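import Mathlib
import Pool.Agent.H64.HV.Cnt
import Pool.Agent.H64.HV.Blk

/-!
# The trade of two codes

`trade W` = number of `a` with `blk (L ∘ s0 a) = W` minus number of `a` with `blk (L ∘ s1 a) = W`. `trade_null`: for `T` with `finrank T < τ + 1` the sum
over `W ≥ T` is the difference of the two numbers in `cnt_eq`. `trade_supp`: `finrank_blk`. `trade_norm`: the sum over `W` of each of the
two numbers is `card K ^ τ` (each `a` is counted once). `trade_one`: `W = ker π = blk 0`; `L ∘ s0 a = 0` iff `a = 0` (`blk_inj`, `L` injective,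
`s0_ker`: if `a ≠ 0` then the kernel of `s0 a` is not everything as its dimension is `< τ < finrank K`), `L ∘ s1 a = 0` is impossible
(`s1_ker`). `trade_ne`: if `trade W ≠ 0` and `W ≠ ker π` then `W = blk π p (L ∘ A)` for some `A`, and `A ≠ 0`.
-/

set_option autoImplicit false
set_option linter.unusedSectionVars false

open Module
open scoped Classical
open Pool.Agent.H24.LS

namespace Pool.Agent.H64.HV

variable (F : Type) [Field F] [Finite F] {K : Type} [Field K] [Algebra F K] [Finite K]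
  {V Y : Type} [AddCommGroup V] [Module F V] [Finite V] [AddCommGroup Y] [Module F Y] [Finite Y]

/-- the trade -/
noncomputable def trade (τ : ℕ) (π : V →ₗ[F] Y) (p : V →ₗ[F] K) (L : K →ₗ[F] Y) (W : Submodule F V) : ℤ :=
  (Nat.card {a : Fin τ → K // blk π p (L ∘ₗ s0 F τ a) = W} : ℤ) - Nat.card {a : Fin τ → K // blk π p (L ∘ₗ s1 F τ a) = W}

private theorem tr_sum {α β : Type} [Finite α] [Fintype β] (g : α → β) (P : β → Prop) :
    ∑ W : β, (if P W then (Nat.card {a // g a = W} : ℤ) else 0) = Nat.card {a // P (g a)} := by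
  letI : Fintype α := Fintype.ofFinite α
  have h1 : ∀ W, (Nat.card {a // g a = W} : ℤ) = ∑ a, if g a = W then 1 else 0 := by
    intro W
    rw [Nat.card_eq_fintype_card, Fintype.card_subtype, Finset.card_filter]
    push_cast
    rfl
  have h2 : (Nat.card {a // P (g a)} : ℤ) = ∑ a, if P (g a) then 1 else 0 := by
    rw [Nat.card_eq_fintype_card, Fintype.card_subtype, Finset.card_filter]
    push_cast
    rfl
  rw [h2]
  have h3 : ∀ W, (if P W then (Nat.card {a // g a = W} : ℤ) else 0) =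
      ∑ a, if g a = W then (if P W then 1 else 0) else 0 := by
    intro W
    rw [h1]
    by_cases h : P W
    · simp only [if_pos h]
    · simp only [if_neg h, ite_self, Finset.sum_const_zero]
  rw [Finset.sum_congr rfl fun W _ => h3 W, Finset.sum_comm]
  refine Finset.sum_congr rfl fun a _ => ?_
  rw [Finset.sum_ite_eq]
  simp

theorem trade_null (τ : ℕ) (hτ : τ ≤ finrank F K) (π : V →ₗ[F] Y) (p : V →ₗ[F] K) (L : K →ₗ[F] Y) :
    Null (τ + 1) (trade F τ π p L) := by
  intro T hT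
  have h1 : ∀ W : Submodule F V, (if T ≤ W then trade F τ π p L W else 0) =
      (if T ≤ W then (Nat.card {a : Fin τ → K // blk π p (L ∘ₗ s0 F τ a) = W} : ℤ) else 0) -
      (if T ≤ W then (Nat.card {a : Fin τ → K // blk π p (L ∘ₗ s1 F τ a) = W} : ℤ) else 0) := by
    intro W
    unfold trade
    split_ifs <;> ring
  rw [Finset.sum_congr rfl fun W _ => h1 W, Finset.sum_sub_distrib,
    tr_sum (fun a : Fin τ → K => blk π p (L ∘ₗ s0 F τ a)) (fun W => T ≤ W),
    tr_sum (fun a : Fin τ → K => blk π p (L ∘ₗ s1 F τ a)) (fun W => T ≤ W),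
    cnt_eq F τ hτ π p L T (by omega), sub_self]

private theorem tr_ex (τ : ℕ) (π : V →ₗ[F] Y) (p : V →ₗ[F] K) (L : K →ₗ[F] Y)
    (W : Submodule F V) (hW : trade F τ π p L W ≠ 0) :
    ∃ a : Fin τ → K, blk π p (L ∘ₗ s0 F τ a) = W ∨ blk π p (L ∘ₗ s1 F τ a) = W := by
  by_contra h
  push Not at h
  apply hW
  unfold trade
  haveI h1 : IsEmpty {a : Fin τ → K // blk π p (L ∘ₗ s0 F τ a) = W} := ⟨fun a => (h a.1).1 a.2⟩
  haveI h2 : IsEmpty {a : Fin τ → K // blk π p (L ∘ₗ s1 F τ a) = W} := ⟨fun a => (h a.1).2 a.2⟩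
  rw [Nat.card_of_isEmpty, Nat.card_of_isEmpty, sub_self]

theorem trade_supp (τ : ℕ) (π : V →ₗ[F] Y) (p : V →ₗ[F] K) (L : K →ₗ[F] Y) (hj : Function.Surjective (π.prod p))
    (W : Submodule F V) (hW : trade F τ π p L W ≠ 0) : finrank F W + finrank F Y = finrank F V := by
  obtain ⟨a, ha | ha⟩ := tr_ex F τ π p L W hW
  · rw [← ha]
    exact finrank_blk π p hj _
  · rw [← ha]
    exact finrank_blk π p hj _

theorem trade_norm (τ : ℕ) (π : V →ₗ[F] Y) (p : V →ₗ[F] K) (L : K →ₗ[F] Y) :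
    ∑ W : Submodule F V, |trade F τ π p L W| ≤ 2 * (Nat.card K : ℤ) ^ τ := by
  have h1 : ∀ W : Submodule F V, |trade F τ π p L W| ≤
      (Nat.card {a : Fin τ → K // blk π p (L ∘ₗ s0 F τ a) = W} : ℤ) +
      (Nat.card {a : Fin τ → K // blk π p (L ∘ₗ s1 F τ a) = W} : ℤ) := by
    intro W
    unfold trade
    rw [abs_le]
    constructor <;> linarith [Int.natCast_nonneg (Nat.card {a : Fin τ → K // blk π p (L ∘ₗ s0 F τ a) = W}),
      Int.natCast_nonneg (Nat.card {a : Fin τ → K // blk π p (L ∘ₗ s1 F τ a) = W})]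
  refine (Finset.sum_le_sum fun W _ => h1 W).trans (le_of_eq ?_)
  rw [Finset.sum_add_distrib]
  have h2 := tr_sum (fun a : Fin τ → K => blk π p (L ∘ₗ s0 F τ a)) (fun _ => True)
  have h3 := tr_sum (fun a : Fin τ → K => blk π p (L ∘ₗ s1 F τ a)) (fun _ => True)
  simp only [if_true] at h2 h3
  rw [h2, h3]
  have h4 : Nat.card {a : Fin τ → K // True} = Nat.card K ^ τ := by
    rw [Nat.card_congr (Equiv.subtypeUnivEquiv fun _ => trivial), Nat.card_fun,
      Nat.card_eq_fintype_card (α := Fin τ), Fintype.card_fin]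
  rw [h4]
  push_cast
  ring

private theorem tr_L0 (π : V →ₗ[F] Y) (p : V →ₗ[F] K) (L : K →ₗ[F] Y)
    (hj : Function.Surjective (π.prod p)) (hL : Function.Injective L) (A : K →ₗ[F] K)
    (h : blk π p (L ∘ₗ A) = LinearMap.ker π) : A = 0 := by
  rw [← blk_zero π p] at h
  have h1 := blk_inj π p hj h
  ext x
  have h2 : L (A x) = 0 := by
    have := LinearMap.congr_fun h1 x
    simpa using this
  rw [LinearMap.zero_apply]
  exact hL (by rw [h2, map_zero])

theorem trade_one (τ : ℕ) (hτ : τ < finrank F K) (π : V →ₗ[F] Y) (p : V →ₗ[F] K) (L : K →ₗ[F] Y) (hj : Function.Surjective (π.prod p))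
    (hL : Function.Injective L) : trade F τ π p L (LinearMap.ker π) = 1 := by
  unfold trade
  have h1 : Nat.card {a : Fin τ → K // blk π p (L ∘ₗ s0 F τ a) = LinearMap.ker π} = 1 := by
    rw [Nat.card_eq_one_iff_unique]
    refine ⟨⟨fun a b => ?_⟩, ⟨⟨0, ?_⟩⟩⟩
    · have h2 : ∀ a : {a : Fin τ → K // blk π p (L ∘ₗ s0 F τ a) = LinearMap.ker π}, a.1 = 0 := by
        intro a
        by_contra hne
        have h3 := tr_L0 F π p L hj hL _ a.2
        have h4 := s0_ker F τ a.1 hne
        rw [h3, LinearMap.ker_zero, finrank_top] at h4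
        omega
      exact Subtype.ext ((h2 a).trans (h2 b).symm)
    · rw [s0_zero, LinearMap.comp_zero, blk_zero]
  haveI h2 : IsEmpty {a : Fin τ → K // blk π p (L ∘ₗ s1 F τ a) = LinearMap.ker π} := by
    refine ⟨fun a => ?_⟩
    have h3 := tr_L0 F π p L hj hL _ a.2
    have h4 := s1_ker F τ a.1
    rw [h3, LinearMap.ker_zero, finrank_top] at h4
    omega
  rw [h1, Nat.card_of_isEmpty]
  norm_num

theorem trade_ne (τ : ℕ) (π : V →ₗ[F] Y) (p : V →ₗ[F] K) (L : K →ₗ[F] Y) (W : Submodule F V)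
    (hW : trade F τ π p L W ≠ 0) (hne : W ≠ LinearMap.ker π) : ∃ A : K →ₗ[F] K, A ≠ 0 ∧ W = blk π p (L ∘ₗ A) := by
  obtain ⟨a, ha | ha⟩ := tr_ex F τ π p L W hW
  · refine ⟨s0 F τ a, fun h => hne ?_, ha.symm⟩
    rw [← ha, h, LinearMap.comp_zero, blk_zero]
  · refine ⟨s1 F τ a, fun h => hne ?_, ha.symm⟩
    rw [← ha, h, LinearMap.comp_zero, blk_zero]

end Pool.Agent.H64.HV
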