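import Mathlib
import Pool.Agent.H64.HV.Trd

/-!
# Local trades at `U`

`exists_sub`: subspaces `X ≤ U` of dimension `l` and `W₀ ≥ X` with `finrank W₀ = k`, `W₀ ⊓ U = X` (take a complement `C` of `U` in `V` and
`W₀ = X ⊔ R'` with `R' ≤ C`, `finrank R' = k - l ≤ finrank V - (s + 1)`).
`exists_loc`: `W₀`, `X` as above, `P ≤ X` of dimension `t + 1`, `Y = V ⧸ W₀`, `π = W₀.mkQ` (`ker π = W₀`), `K` = the extension of `F` of degree `t + 1`
(`FiniteField.Extension F p (t + 1)`, see `L.singer` in `H24/LSSinger.lean`), `p : V →ₗ K` an extension of an isomorphism `P ≃ K` (`LinearMap.exists_extend`).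
`(π, p)` is surjective: `π` is, and `p` maps `P ≤ ker π` onto `K`. `finrank (U.map π) = s + 1 - l`, `finrank Y = finrank V - k`, so there is an injective
`L : K → Y` with `range L ⊓ U.map π = ⊥` (a complement of `U.map π` in `Y` has dimension `≥ t + 1`: `finrank V - k - (s + 1 - l) ≥ l ≥ t + 1`). `c = trade F t π p L`: `trade_null`
(`t ≤ t + 1 = finrank K`), `trade_supp`, `trade_norm` (`card K = q ^ (t + 1)`), `trade_one`; `trade_ne` and `blk_lt` (`P ≤ ker π ⊓ U`, `P.map p = ⊤`).
-/

set_option autoImplicit false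
set_option linter.unusedSectionVars false

open Module
open scoped Classical
open Pool.Agent.H24.LS

namespace Pool.Agent.H64.HV

variable {F : Type} [Field F] [Finite F] {V : Type} [AddCommGroup V] [Module F V] [Finite V]

private theorem loc_between {M : Type} [AddCommGroup M] [Module F M] [Finite M] (A B : Submodule F M) (hAB : A ≤ B) (d : ℕ) :
    finrank F A ≤ d → d ≤ finrank F B → ∃ C : Submodule F M, A ≤ C ∧ C ≤ B ∧ finrank F C = d := by
  have hfin : FiniteDimensional F M := Module.Finite.of_finite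
  intro h
  induction d, h using Nat.le_induction with
  | base => intro _; exact ⟨A, le_rfl, hAB, rfl⟩
  | succ d hd ih =>
    intro hK
    obtain ⟨T', h1, h2, h3⟩ := ih (by omega)
    have h4 : T' ≠ B := by
      intro h
      rw [h] at h3
      omega
    obtain ⟨v, hvB, hv⟩ := SetLike.exists_of_lt (lt_of_le_of_ne h2 h4)
    refine ⟨T' ⊔ Submodule.span F {v}, h1.trans le_sup_left, sup_le h2 ?_, ?_⟩
    · rw [Submodule.span_singleton_le_iff_mem]
      exact hvB
    · rw [Submodule.finrank_sup_span_singleton hv, h3]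

private theorem loc_compl {M : Type} [AddCommGroup M] [Module F M] [Finite M] (A : Submodule F M) :
    ∃ C : Submodule F M, A ⊓ C = ⊥ ∧ finrank F A + finrank F C = finrank F M := by
  have hfin : FiniteDimensional F M := Module.Finite.of_finite
  obtain ⟨C, hC⟩ := Submodule.exists_isCompl A
  exact ⟨C, hC.inf_eq_bot, Submodule.finrank_add_eq_of_isCompl hC⟩

theorem exists_sub (U : Submodule F V) (s k l : ℕ) (hU : finrank F U = s + 1) (hl : l ≤ s + 1) (hk : l ≤ k)
    (hv : k + s + 1 ≤ finrank F V) : ∃ W₀ : Submodule F V, finrank F W₀ = k ∧ finrank F (W₀ ⊓ U : Submodule F V) = l := by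
  have hfin : FiniteDimensional F V := Module.Finite.of_finite
  obtain ⟨X, -, hXU, hX⟩ := loc_between (⊥ : Submodule F V) U bot_le l (by rw [finrank_bot]; omega) (by omega)
  obtain ⟨C, hC, hC'⟩ := loc_compl U
  obtain ⟨R, -, hRC, hR⟩ := loc_between (⊥ : Submodule F V) C bot_le (k - l) (by rw [finrank_bot]; omega) (by omega)
  have hRU : R ⊓ U = ⊥ := by
    rw [eq_bot_iff, ← hC]
    exact le_inf inf_le_right (inf_le_left.trans hRC)
  have hXR : X ⊓ R = ⊥ := by
    rw [eq_bot_iff, ← hRU]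
    exact le_inf inf_le_right (inf_le_left.trans hXU)
  have hW : (X ⊔ R) ⊓ U = X := by
    rw [sup_inf_assoc_of_le R hXU, hRU, sup_bot_eq]
  refine ⟨X ⊔ R, ?_, ?_⟩
  · have h := Submodule.finrank_sup_add_finrank_inf_eq X R
    rw [hXR, finrank_bot] at h
    omega
  · rw [hW, hX]

theorem exists_loc (t l s k : ℕ) (U : Submodule F V) (hU : finrank F U = s + 1) (htl : t < l) (hl : l ≤ s + 1) (hk : s + 1 ≤ k)
    (hv : k + s + 1 ≤ finrank F V) : ∃ (c : Submodule F V → ℤ) (W₀ : Submodule F V), Null (t + 1) c ∧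
      (∀ W, c W ≠ 0 → finrank F W = k) ∧ (∑ W : Submodule F V, |c W| ≤ 2 * (Nat.card F : ℤ) ^ ((t + 1) * t)) ∧
      finrank F W₀ = k ∧ finrank F (W₀ ⊓ U : Submodule F V) = l ∧ c W₀ = 1 ∧
      ∀ W, c W ≠ 0 → W ≠ W₀ → finrank F (W ⊓ U : Submodule F V) < l := by
  have hfin : FiniteDimensional F V := Module.Finite.of_finite
  obtain ⟨W₀, hW0, hWU⟩ := exists_sub U s k l hU hl (hl.trans hk) hv
  obtain ⟨P, -, hPX, hP⟩ := loc_between (⊥ : Submodule F V) (W₀ ⊓ U) bot_le (t + 1)
    (by rw [finrank_bot]; omega) (by omega)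
  obtain ⟨ch, hch⟩ := CharP.exists F
  have : Fact ch.Prime := ⟨(CharP.char_is_prime F ch)⟩
  have : NeZero (t + 1) := ⟨Nat.succ_ne_zero t⟩
  have hfr : finrank F (FiniteField.Extension F ch (t + 1)) = t + 1 :=
    FiniteField.finrank_extension F ch (t + 1)
  set K := FiniteField.Extension F ch (t + 1) with hK
  have hfinK : FiniteDimensional F K := Module.Finite.of_finite
  have hcard : Nat.card K = Nat.card F ^ (t + 1) := by
    rw [← hfr]
    exact Module.natCard_eq_pow_finrank
  have : Finite (V ⧸ W₀) := Quotient.finite _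
  have hfinY : FiniteDimensional F (V ⧸ W₀) := Module.Finite.of_finite
  have e1 : P ≃ₗ[F] K := LinearEquiv.ofFinrankEq _ _ (by rw [hP, hfr])
  obtain ⟨p, hp⟩ := LinearMap.exists_extend (e1 : P →ₗ[F] K)
  have hp' : ∀ x : P, p x = e1 x := fun x => LinearMap.congr_fun hp x
  have hker : LinearMap.ker W₀.mkQ = W₀ := Submodule.ker_mkQ W₀
  have hPW : P ≤ W₀ := hPX.trans inf_le_left
  have hj : Function.Surjective (W₀.mkQ.prod p) := by
    rintro ⟨y, κ⟩
    obtain ⟨v, hv1⟩ := Submodule.mkQ_surjective W₀ y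
    obtain ⟨w, hw⟩ := e1.surjective (κ - p v)
    have hw0 : W₀.mkQ (w : V) = 0 := by
      rw [← LinearMap.mem_ker, hker]
      exact hPW w.2
    refine ⟨v + w, ?_⟩
    rw [LinearMap.prod_apply]
    show (W₀.mkQ (v + w), p (v + w)) = (y, κ)
    rw [map_add, map_add, hw0, hv1, hp' w, hw, add_zero, add_sub_cancel]
  have hPt : P.map p = ⊤ := by
    rw [eq_top_iff]
    intro κ _
    obtain ⟨w, hw⟩ := e1.surjective κ
    exact ⟨w, w.2, by rw [hp' w, hw]⟩
  have hYd : finrank F (V ⧸ W₀) + k = finrank F V := by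
    rw [← hW0]
    exact Submodule.finrank_quotient_add_finrank W₀
  have hUd : finrank F (U.map W₀.mkQ) + l = s + 1 := by
    have h := LinearMap.finrank_range_add_finrank_ker (W₀.mkQ.domRestrict U)
    rw [LinearMap.range_domRestrict, LinearMap.ker_domRestrict, hker, hU] at h
    have h2 : finrank F (Submodule.comap U.subtype W₀) = l := by
      rw [← hWU, ← Submodule.finrank_map_subtype_eq U (Submodule.comap U.subtype W₀),
        Submodule.map_comap_subtype, inf_comm]
    rw [h2] at h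
    exact h
  obtain ⟨C, hC, hC'⟩ := loc_compl (U.map W₀.mkQ)
  obtain ⟨R, -, hRC, hR⟩ := loc_between (⊥ : Submodule F (V ⧸ W₀)) C bot_le (t + 1)
    (by rw [finrank_bot]; omega) (by omega)
  have e2 : K ≃ₗ[F] R := LinearEquiv.ofFinrankEq _ _ (by rw [hR, hfr])
  set L : K →ₗ[F] (V ⧸ W₀) := R.subtype ∘ₗ (e2 : K →ₗ[F] R) with hL
  have hLinj : Function.Injective L := by
    intro a b hab
    exact e2.injective (Subtype.ext hab)
  have hLr : LinearMap.range L ⊓ U.map W₀.mkQ = ⊥ := by
    rw [eq_bot_iff, ← hC]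
    refine le_inf inf_le_right (inf_le_left.trans (le_trans ?_ hRC))
    rintro _ ⟨x, rfl⟩
    exact (e2 x).2
  have hPk : P ≤ LinearMap.ker W₀.mkQ ⊓ U := by rw [hker]; exact hPX
  refine ⟨trade F t W₀.mkQ p L, W₀, ?_, ?_, ?_, hW0, hWU, ?_, ?_⟩
  · exact trade_null F t (le_of_le_of_eq (Nat.le_succ t) hfr.symm) W₀.mkQ p L
  · intro W hW
    have h := trade_supp F t W₀.mkQ p L hj W hW
    omega
  · refine (trade_norm F t W₀.mkQ p L).trans (le_of_eq ?_)
    rw [hcard, pow_mul]
    push_cast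
    rfl
  · have h := trade_one F t (lt_of_lt_of_eq (Nat.lt_succ_self t) hfr.symm) W₀.mkQ p L hj hLinj
    rwa [hker] at h
  · intro W hW hne
    obtain ⟨A, hA, rfl⟩ := trade_ne F t W₀.mkQ p L W hW (by rwa [hker])
    have h := blk_lt W₀.mkQ p L hLinj U P hLr hPk hPt A hA
    rwa [hker, hWU] at h

end Pool.Agent.H64.HV
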