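import Mathlib

/-!
# Number of `k`-subspaces

`card_gr_le`: every `W` with `finrank F W = k` is the span of the range of some `b : Fin k → V` (a basis of `W`, coerced to `V`); so the map
`b ↦ span F (range b)` from `Fin k → V` hits all of them; `card (Fin k → V) = card V ^ k = card F ^ (finrank V * k)`
(`Module.natCard_eq_pow_finrank`).
-/

set_option autoImplicit false

open Module

namespace Pool.Agent.H64.HV

theorem card_gr_le {F : Type} [Field F] [Finite F] {V : Type} [AddCommGroup V] [Module F V] [Finite V] (k : ℕ) :
    Nat.card {W : Submodule F V // finrank F W = k} ≤ Nat.card F ^ (k * finrank F V) := by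
  have hfin : FiniteDimensional F V := Module.Finite.of_finite
  have h1 : Nat.card (Fin k → V) = Nat.card F ^ (k * finrank F V) := by
    rw [Nat.card_fun, Nat.card_eq_fintype_card (α := Fin _), Fintype.card_fin,
      Module.natCard_eq_pow_finrank (K := F) (V := V), ← pow_mul, mul_comm]
  rw [← h1]
  refine Nat.card_le_card_of_injective
    (fun W : {W : Submodule F V // finrank F W = k} =>
      fun i => ((finBasisOfFinrankEq F W.1 W.2 i : W.1) : V)) ?_
  intro W W' h
  apply Subtype.ext
  have h2 : ∀ W : {W : Submodule F V // finrank F W = k},
      Submodule.span F (Set.range fun i => ((finBasisOfFinrankEq F W.1 W.2 i : W.1) : V)) = W.1 := by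
    intro W
    have h3 : (Set.range fun i => ((finBasisOfFinrankEq F W.1 W.2 i : W.1) : V)) =
        W.1.subtype '' (Set.range (finBasisOfFinrankEq F W.1 W.2)) := by
      rw [← Set.range_comp]
      rfl
    rw [h3, ← Submodule.map_span, (finBasisOfFinrankEq F W.1 W.2).span_eq,
      Submodule.map_subtype_top]
  rw [← h2 W, ← h2 W']
  exact congrArg (fun b : Fin k → V => Submodule.span F (Set.range b)) h

end Pool.Agent.H64.HV
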