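import Mathlib
import Pool.Agent.H64.HV.Cnt

/-!
# Functions of degree `t`

`deg t ξ W = ∑ ξ T` over the `t`-subspaces `T ≤ W`. `deg_orth`: exchange the sums: `∑_W f W deg W = ∑_T ξ T ∑_{W ≥ T} f W`, and the inner sum is
`0` for `finrank T = t < t + 1`. `deg_rel`: exchange the sums: `∑_a deg (blk (L ∘ s0 a)) = ∑_T ξ T · #{a | T ≤ blk (L ∘ s0 a)}`, `cnt_eq`.
-/

set_option autoImplicit false
set_option linter.unusedSectionVars false

open Module
open scoped Classical
open Pool.Agent.H24.LS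

namespace Pool.Agent.H64.HV

variable (F : Type) [Field F] [Finite F] {K : Type} [Field K] [Algebra F K] [Finite K]
  {V Y : Type} [AddCommGroup V] [Module F V] [Finite V] [AddCommGroup Y] [Module F Y] [Finite Y]

/-- sums over the `t`-subspaces of `W` -/
noncomputable def deg (t : ℕ) (ξ : Submodule F V → ℝ) (W : Submodule F V) : ℝ :=
  ∑ T : Submodule F V, if (finrank F T = t ∧ T ≤ W) then ξ T else 0

theorem deg_orth (t : ℕ) (ξ : Submodule F V → ℝ) (f : Submodule F V → ℤ) (hf : Null (t + 1) f) :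
    ∑ W : Submodule F V, (f W : ℝ) * deg F t ξ W = 0 := by
  unfold deg
  simp_rw [Finset.mul_sum]
  rw [Finset.sum_comm]
  refine Finset.sum_eq_zero fun T _ => ?_
  by_cases hT : finrank F T = t
  · have h1 := hf T (by omega)
    have h2 : ∑ W : Submodule F V, (f W : ℝ) * (if (finrank F T = t ∧ T ≤ W) then ξ T else 0) =
        ξ T * ((∑ W : Submodule F V, (if T ≤ W then f W else 0) : ℤ) : ℝ) := by
      rw [Int.cast_sum, Finset.mul_sum]
      refine Finset.sum_congr rfl fun W _ => ?_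
      by_cases hW : T ≤ W
      · rw [if_pos ⟨hT, hW⟩, if_pos hW, mul_comm]
      · rw [if_neg (fun h => hW h.2), if_neg hW]
        simp
    rw [h2, h1]
    simp
  · refine Finset.sum_eq_zero fun W _ => ?_
    rw [if_neg (fun h => hT h.1), mul_zero]

private theorem deg_sum (t : ℕ) (ξ : Submodule F V → ℝ) (π : V →ₗ[F] Y) (p : V →ₗ[F] K) (L : K →ₗ[F] Y)
    [Fintype K] (s : (Fin t → K) → (K →ₗ[F] K)) :
    ∑ a : Fin t → K, deg F t ξ (blk π p (L ∘ₗ s a)) =
      ∑ T : Submodule F V, (if finrank F T = t then ξ T else 0) *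
        (Nat.card {a : Fin t → K // T ≤ blk π p (L ∘ₗ s a)} : ℝ) := by
  unfold deg
  rw [Finset.sum_comm]
  refine Finset.sum_congr rfl fun T _ => ?_
  by_cases hT : finrank F T = t
  · rw [if_pos hT, Nat.card_eq_fintype_card, Fintype.card_subtype, Finset.card_eq_sum_ones,
      Nat.cast_sum, Finset.mul_sum, Finset.sum_filter]
    refine Finset.sum_congr rfl fun a _ => ?_
    by_cases hW : T ≤ blk π p (L ∘ₗ s a)
    · rw [if_pos ⟨hT, hW⟩, if_pos hW]
      simp
    · rw [if_neg (fun h => hW h.2), if_neg hW]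
  · rw [if_neg hT, zero_mul]
    refine Finset.sum_eq_zero fun a _ => ?_
    rw [if_neg (fun h => hT h.1)]

theorem deg_rel (t : ℕ) (ht : t ≤ finrank F K) (ξ : Submodule F V → ℝ) (π : V →ₗ[F] Y) (p : V →ₗ[F] K) (L : K →ₗ[F] Y)
    [Fintype K] :
    ∑ a : Fin t → K, deg F t ξ (blk π p (L ∘ₗ s0 F t a)) = ∑ a : Fin t → K, deg F t ξ (blk π p (L ∘ₗ s1 F t a)) := by
  rw [deg_sum F t ξ π p L (s0 F t), deg_sum F t ξ π p L (s1 F t)]
  refine Finset.sum_congr rfl fun T _ => ?_
  by_cases hT : finrank F T = t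
  · rw [cnt_eq F t ht π p L T hT.le]
  · rw [if_neg hT, zero_mul, zero_mul]

end Pool.Agent.H64.HV
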