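import Mathlib
import Pool.Agent.H64.HV.Rel

/-!
# The rounding errors are orthogonal to the small null functions
-/

set_option autoImplicit false
set_option linter.unusedSectionVars false

open Module
open scoped Classical
open Pool.Agent.H24.LS

namespace Pool.Agent.H64.HV

variable (F : Type) [Field F] [Finite F] {V : Type} [AddCommGroup V] [Module F V] [Finite V]

theorem small_orth (t k : ℕ) (ξ : Submodule F V → ℝ) (S δ : ℝ) (hδ0 : 0 ≤ δ) (hδ : S * δ < 1)
    (hsm : ∀ W : Submodule F V, finrank F W = k → |deg F t ξ W - round (deg F t ξ W)| ≤ δ)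
    (c : Submodule F V → ℤ) (hc : Null (t + 1) c) (hs : ∀ W, c W ≠ 0 → finrank F W = k)
    (hn : (∑ W : Submodule F V, |(c W : ℝ)|) ≤ S) :
    ∑ W : Submodule F V, (c W : ℝ) * (deg F t ξ W - round (deg F t ξ W)) = 0 := by
  have h1 := deg_orth F t ξ c hc
  have h2 : ∑ W : Submodule F V, (c W : ℝ) * (deg F t ξ W - round (deg F t ξ W)) =
      -((∑ W : Submodule F V, c W * round (deg F t ξ W) : ℤ) : ℝ) := by
    push_cast
    rw [← zero_sub, ← h1, ← Finset.sum_sub_distrib]
    apply Finset.sum_congr rfl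
    intro W _
    ring
  have h3 : |∑ W : Submodule F V, (c W : ℝ) * (deg F t ξ W - round (deg F t ξ W))| < 1 := by
    calc |∑ W : Submodule F V, (c W : ℝ) * (deg F t ξ W - round (deg F t ξ W))|
        ≤ ∑ W : Submodule F V, |(c W : ℝ) * (deg F t ξ W - round (deg F t ξ W))| := Finset.abs_sum_le_sum_abs _ _
      _ ≤ ∑ W : Submodule F V, |(c W : ℝ)| * δ := by
          apply Finset.sum_le_sum
          intro W _
          rw [abs_mul]
          by_cases h : c W = 0
          · rw [h]
            simp
          · exact mul_le_mul_of_nonneg_left (hsm W (hs W h)) (abs_nonneg _)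
      _ = (∑ W : Submodule F V, |(c W : ℝ)|) * δ := by rw [Finset.sum_mul]
      _ ≤ S * δ := mul_le_mul_of_nonneg_right hn hδ0
      _ < 1 := hδ
  rw [h2] at h3 ⊢
  rw [abs_neg, ← Int.cast_abs] at h3
  have h4 : |∑ W : Submodule F V, c W * round (deg F t ξ W)| < 1 := by exact_mod_cast h3
  rw [Int.abs_lt_one_iff] at h4
  rw [h4]
  simp

end Pool.Agent.H64.HV
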