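import Mathlib

/-!
# Number of linear maps with prescribed values on the range of `A`

If there is no such `L` the number is `0`. Otherwise fix one, `L₀`; `L ↦ L - L₀` is an injection into `{L : K →ₗ[F] Y // L ∘ₗ A = 0}`, i.e. the maps which vanish on
`range A`; these are the maps from `K ⧸ range A` (`Submodule.liftQ`, or restrict to a complement `C` of `range A`, `L` is determined by
`L.domRestrict C`), and `Nat.card (C →ₗ[F] Y) = Nat.card Y ^ finrank C` (basis) with `finrank C = finrank K - finrank (range A) = finrank (ker A)`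
(`K` is also the domain of `A`).
-/

set_option autoImplicit false

open Module
open scoped Classical

namespace Pool.Agent.H64.HV

/-- the number of all linear maps -/
theorem card_lin {F : Type} [Field F] [Finite F] {K Y : Type} [AddCommGroup K] [Module F K] [Finite K] [AddCommGroup Y]
    [Module F Y] [Finite Y] : Nat.card (K →ₗ[F] Y) = Nat.card Y ^ finrank F K := by
  have hfin : FiniteDimensional F K := Module.Finite.of_finite
  rw [← Nat.card_congr ((finBasis F K).constr F (M' := Y)).toEquiv, Nat.card_fun,
    Nat.card_eq_fintype_card (α := Fin _), Fintype.card_fin]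

theorem card_lin_le {F : Type} [Field F] [Finite F] {K Y : Type} [AddCommGroup K] [Module F K] [Finite K] [AddCommGroup Y]
    [Module F Y] [Finite Y] (A : K →ₗ[F] K) (B : K →ₗ[F] Y) :
    Nat.card {L : K →ₗ[F] Y // L ∘ₗ A = B} ≤ Nat.card Y ^ finrank F (LinearMap.ker A) := by
  have hfin : FiniteDimensional F K := Module.Finite.of_finite
  obtain ⟨C, hC⟩ := (LinearMap.range A).exists_isCompl
  have h1 : finrank F C = finrank F (LinearMap.ker A) := by
    have h2 := Submodule.finrank_add_eq_of_isCompl hC
    have h3 := LinearMap.finrank_range_add_finrank_ker A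
    omega
  rw [← h1, ← card_lin (F := F) (K := C) (Y := Y)]
  have hfV : Finite (C →ₗ[F] Y) :=
    Finite.of_injective (fun B : C →ₗ[F] Y => (B : C → Y)) DFunLike.coe_injective
  refine Nat.card_le_card_of_injective
    (fun L : {L : K →ₗ[F] Y // L ∘ₗ A = B} => L.1.domRestrict C) ?_
  intro L L' h
  apply Subtype.ext
  apply LinearMap.ext
  intro x
  have hx : x ∈ LinearMap.range A ⊔ C := by
    rw [hC.sup_eq_top]
    exact Submodule.mem_top
  obtain ⟨y, ⟨w, rfl⟩, c, hc, rfl⟩ := Submodule.mem_sup.mp hx
  rw [map_add, map_add]
  have e1 : L.1 (A w) = L'.1 (A w) := by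
    have := LinearMap.congr_fun (L.2.trans L'.2.symm) w
    exact this
  have e2 : L.1 c = L'.1 c := LinearMap.congr_fun h ⟨c, hc⟩
  rw [e1, e2]

end Pool.Agent.H64.HV
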