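import Mathlib
import Pool.Agent.H64.HV.Rel
import Pool.Agent.H64.HV.Blk
import Pool.Agent.H64.HV.Nlm
import Pool.Agent.H38.HQ.Halv

/-!
# STEP 4: the value at one block is controlled by the sum of the squares

Let `k = finrank W₀`, `Y = V ⧸ W₀` (`finrank Y = finrank V - k`, `card Y = q ^ (finrank V - k)`), `π = W₀.mkQ`, `K` the extension of `F` of degree `k` (`k ≥ 1` as `t ≥ 1`;
`FiniteField.Extension F p k`, see `L.singer` in `H24/LSSinger.lean`), `p : V →ₗ[F] K` an extension of an isomorphism `W₀ ≃ K`. `(π, p)` is surjective.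
Use `Pool.H38.HQ.avg_cs` with `Λ = (K →ₗ[F] Y)` (`card_lin`: `card Λ = q ^ ((finrank V - k) * k)`), `S = {a : Fin t → K // a ≠ 0} ⊕ (Fin t → K)` (`card S ≤ 2 q ^ (k t)`),
`β = {W // finrank F W = k}`, `blk l (inl a) = blk π p (l ∘ s0 a)`, `blk l (inr a) = blk π p (l ∘ s1 a)` (`finrank_blk`), `d W = |x W - round (x W)|` for `x = deg F t ξ`,
`r = d W₀`, `c = q ^ ((finrank V - k) * t)`.
`hr`: `W₀ = ker π = blk π p (l ∘ s0 0)` (`blk_zero`, `s0_zero`), so `deg_rel` gives `x W₀ = ∑_a x (blk (l ∘ s1 a)) - ∑_{a ≠ 0} x (blk (l ∘ s0 a))`; the distance to the nearest integer is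
at most the sum of the distances (`round_le`: `|x - round x| ≤ |x - z|` for every integer `z`; take `z` = the signed sum of the rounded values).
`hc`: if `blk π p (l ∘ A) = b` has a solution `l₁` then all solutions satisfy `l ∘ A = l₁ ∘ A` (`blk_inj`); `card_lin_le` with `finrank (ker A) ≤ t` (`s0_ker` for `a ≠ 0`,
`s1_ker`), `1 ≤ card Y`.
-/

set_option autoImplicit false
set_option linter.unusedSectionVars false

open Module
open scoped Classical

namespace Pool.Agent.H64.HV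

variable (F : Type) [Field F] [Finite F] {V : Type} [AddCommGroup V] [Module F V] [Finite V]

private theorem gd_surj (W₀ : Submodule F V) {K : Type} [AddCommGroup K] [Module F K]
    (e : W₀ ≃ₗ[F] K) (p : V →ₗ[F] K) (hp : ∀ w : W₀, p w = e w) :
    Function.Surjective (W₀.mkQ.prod p) := by
  rintro ⟨y, κ⟩
  obtain ⟨z, hz⟩ := W₀.mkQ_surjective y
  refine ⟨z + (e.symm (κ - p z) : W₀), ?_⟩
  show (W₀.mkQ (z + (e.symm (κ - p z) : W₀)), p (z + (e.symm (κ - p z) : W₀))) = (y, κ)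
  rw [Prod.mk.injEq]
  constructor
  · rw [map_add, hz, Submodule.mkQ_apply, (Submodule.Quotient.mk_eq_zero W₀).2 (Subtype.prop _), add_zero]
  · rw [map_add, hp, LinearEquiv.apply_symm_apply]
    abel

private theorem gd_fin {K Y : Type} [AddCommGroup K] [Module F K] [Finite K] [AddCommGroup Y]
    [Module F Y] [Finite Y] : Finite (K →ₗ[F] Y) :=
  Finite.of_injective (fun f : K →ₗ[F] Y => (f : K → Y)) DFunLike.coe_injective

private theorem gd_fib {K Y : Type} [AddCommGroup K] [Module F K] [Finite K] [AddCommGroup Y]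
    [Module F Y] [Finite Y] (π : V →ₗ[F] Y) (p : V →ₗ[F] K) (hj : Function.Surjective (π.prod p))
    (A : K →ₗ[F] K) (t : ℕ) (hA : finrank F (LinearMap.ker A) ≤ t) (W : Submodule F V) :
    Nat.card {l : K →ₗ[F] Y // blk π p (l ∘ₗ A) = W} ≤ Nat.card Y ^ t := by
  haveI := gd_fin F (K := K) (Y := Y)
  by_cases h : ∃ l₁ : K →ₗ[F] Y, blk π p (l₁ ∘ₗ A) = W
  · obtain ⟨l₁, h₁⟩ := h
    have h2 : ∀ l : {l : K →ₗ[F] Y // blk π p (l ∘ₗ A) = W}, l.1 ∘ₗ A = l₁ ∘ₗ A := by
      intro l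
      exact blk_inj π p hj (l.2.trans h₁.symm)
    have h3 : Nat.card {l : K →ₗ[F] Y // blk π p (l ∘ₗ A) = W} ≤
        Nat.card {L : K →ₗ[F] Y // L ∘ₗ A = l₁ ∘ₗ A} :=
      Nat.card_le_card_of_injective (fun l => ⟨l.1, h2 l⟩) fun l l' hl =>
        Subtype.ext (congrArg (fun z => z.1) hl)
    exact h3.trans ((card_lin_le A (l₁ ∘ₗ A)).trans (Nat.pow_le_pow_right Nat.card_pos hA))
  · push Not at h
    haveI : IsEmpty {l : K →ₗ[F] Y // blk π p (l ∘ₗ A) = W} := ⟨fun l => h l.1 l.2⟩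
    rw [Nat.card_of_isEmpty]
    exact Nat.zero_le _

private theorem gd_sum {α : Type} [Fintype α] [DecidableEq α] (a0 : α) (u v : α → ℝ) (x : ℝ) (hx : u a0 = x)
    (h : ∑ a, u a = ∑ a, v a) :
    |x - round x| ≤ ∑ s : {a : α // a ≠ a0} ⊕ α,
      |Sum.elim (fun a : {a : α // a ≠ a0} => u a.1) v s -
        round (Sum.elim (fun a : {a : α // a ≠ a0} => u a.1) v s)| := by
  rw [Fintype.sum_sum_type]
  simp only [Sum.elim_inl, Sum.elim_inr]
  have h1 : ∑ a, u a = x + ∑ a : {a : α // a ≠ a0}, u a.1 := by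
    rw [← hx]
    exact Fintype.sum_eq_add_sum_subtype_ne u a0
  obtain ⟨z, hz⟩ : ∃ z : ℤ, z = ∑ a, round (v a) - ∑ a : {a : α // a ≠ a0}, round (u a.1) := ⟨_, rfl⟩
  refine (round_le x z).trans ?_
  have h2 : x - z = ∑ a, (v a - round (v a)) - ∑ a : {a : α // a ≠ a0}, (u a.1 - round (u a.1)) := by
    rw [hz, Finset.sum_sub_distrib, Finset.sum_sub_distrib]
    push_cast
    linarith
  rw [h2]
  have h3 := Finset.abs_sum_le_sum_abs (fun a => v a - round (v a)) Finset.univ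
  have h4 := Finset.abs_sum_le_sum_abs (fun a : {a : α // a ≠ a0} => u a.1 - round (u a.1)) Finset.univ
  have h5 := abs_sub (∑ a, (v a - round (v a))) (∑ a : {a : α // a ≠ a0}, (u a.1 - round (u a.1)))
  linarith

private theorem gd_main {K : Type} [Field K] [Algebra F K] [Finite K]
    (t k : ℕ) (htk : t ≤ k) (hK : finrank F K = k) (W₀ : Submodule F V) (hW : finrank F W₀ = k)
    (ξ : Submodule F V → ℝ) :
    (Nat.card F : ℝ) ^ ((finrank F V - k) * k) * |deg F t ξ W₀ - round (deg F t ξ W₀)| ^ 2 ≤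
      (2 * (Nat.card F : ℝ) ^ (k * t)) ^ 2 * (Nat.card F : ℝ) ^ ((finrank F V - k) * t) *
        ∑ W : {W : Submodule F V // finrank F W = k}, |deg F t ξ W.1 - round (deg F t ξ W.1)| ^ 2 := by
  haveI : Module.Finite F K := Module.Finite.of_finite
  let e : W₀ ≃ₗ[F] K := LinearEquiv.ofFinrankEq W₀ K (hW.trans hK.symm)
  obtain ⟨p, hp⟩ := LinearMap.exists_extend (e : W₀ →ₗ[F] K)
  have hp' : ∀ w : W₀, p w = e w := fun w => LinearMap.congr_fun hp w
  have hj := gd_surj F W₀ e p hp'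
  have hY : finrank F (V ⧸ W₀) = finrank F V - k := by
    have := Submodule.finrank_quotient_add_finrank W₀
    omega
  have hVk : k ≤ finrank F V := by
    rw [← hW]
    exact Submodule.finrank_le W₀
  haveI := gd_fin F (K := K) (Y := V ⧸ W₀)
  letI : Fintype (K →ₗ[F] (V ⧸ W₀)) := Fintype.ofFinite _
  letI : Fintype K := Fintype.ofFinite K
  have hfb : ∀ B : K →ₗ[F] (V ⧸ W₀), finrank F (blk W₀.mkQ p B) = k := by
    intro B
    have := finrank_blk W₀.mkQ p hj B
    omega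
  obtain ⟨x, hx⟩ : ∃ x : Submodule F V → ℝ, x = deg F t ξ := ⟨_, rfl⟩
  have hav := Pool.H38.HQ.avg_cs (Λ := K →ₗ[F] (V ⧸ W₀)) (S := {a : Fin t → K // a ≠ 0} ⊕ (Fin t → K))
    (β := {W : Submodule F V // finrank F W = k})
    (fun l => Sum.elim (fun a => ⟨blk W₀.mkQ p (l ∘ₗ s0 F t a.1), hfb _⟩)
      (fun a => ⟨blk W₀.mkQ p (l ∘ₗ s1 F t a), hfb _⟩))
    (fun W => |x W.1 - round (x W.1)|) (fun W => abs_nonneg _) |x W₀ - round (x W₀)| ?_ (abs_nonneg _)
    (Nat.card (V ⧸ W₀) ^ t) ?_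
  · rw [← hx]
    have c1 : (Fintype.card (K →ₗ[F] (V ⧸ W₀)) : ℝ) = (Nat.card F : ℝ) ^ ((finrank F V - k) * k) := by
      rw [← Nat.card_eq_fintype_card, card_lin, hK, Module.natCard_eq_pow_finrank (K := F) (V := V ⧸ W₀), hY]
      push_cast
      rw [← pow_mul]
    have c2 : ((Nat.card (V ⧸ W₀) ^ t : ℕ) : ℝ) = (Nat.card F : ℝ) ^ ((finrank F V - k) * t) := by
      rw [Module.natCard_eq_pow_finrank (K := F) (V := V ⧸ W₀), hY]
      push_cast
      rw [← pow_mul]
    have c3 : (Fintype.card ({a : Fin t → K // a ≠ 0} ⊕ (Fin t → K)) : ℝ) ≤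
        2 * (Nat.card F : ℝ) ^ (k * t) := by
      have h1 : Fintype.card (Fin t → K) = Nat.card F ^ (k * t) := by
        rw [Fintype.card_fun, Fintype.card_fin, ← Nat.card_eq_fintype_card,
          Module.natCard_eq_pow_finrank (K := F) (V := K), hK, ← pow_mul]
      have h2 : Fintype.card {a : Fin t → K // a ≠ 0} ≤ Fintype.card (Fin t → K) :=
        Fintype.card_subtype_le _
      rw [Fintype.card_sum]
      have h3 : Fintype.card {a : Fin t → K // a ≠ 0} + Fintype.card (Fin t → K) ≤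
          2 * Nat.card F ^ (k * t) := by omega
      exact_mod_cast h3
    rw [c1, c2] at hav
    refine hav.trans ?_
    refine mul_le_mul_of_nonneg_right ?_ (Finset.sum_nonneg fun _ _ => sq_nonneg _)
    refine mul_le_mul_of_nonneg_right ?_ (by positivity)
    exact pow_le_pow_left₀ (by positivity) c3 2
  · intro l
    have h1 := deg_rel F t (by omega) ξ W₀.mkQ p l (K := K)
    rw [← hx] at h1
    have h2 : x (blk W₀.mkQ p (l ∘ₗ s0 F t (0 : Fin t → K))) = x W₀ := by
      rw [s0_zero, LinearMap.comp_zero, blk_zero, Submodule.ker_mkQ]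
    have h3 := gd_sum (0 : Fin t → K) (fun a => x (blk W₀.mkQ p (l ∘ₗ s0 F t a)))
      (fun a => x (blk W₀.mkQ p (l ∘ₗ s1 F t a))) (x W₀) h2 h1
    refine h3.trans (le_of_eq ?_)
    refine Finset.sum_congr rfl fun s _ => ?_
    cases s <;> rfl
  · intro s b
    cases s with
    | inl a =>
      have h1 := gd_fib F W₀.mkQ p hj (s0 F t a.1) t (s0_ker F t a.1 a.2).le b.1
      refine le_trans (le_of_eq ?_) h1
      refine Nat.card_congr (Equiv.subtypeEquivRight fun l => ?_)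
      show (⟨blk W₀.mkQ p (l ∘ₗ s0 F t a.1), hfb _⟩ : {W : Submodule F V // finrank F W = k}) = b ↔ _
      rw [Subtype.ext_iff]
    | inr a =>
      have h1 := gd_fib F W₀.mkQ p hj (s1 F t a) t (s1_ker F t a) b.1
      refine le_trans (le_of_eq ?_) h1
      refine Nat.card_congr (Equiv.subtypeEquivRight fun l => ?_)
      show (⟨blk W₀.mkQ p (l ∘ₗ s1 F t a), hfb _⟩ : {W : Submodule F V // finrank F W = k}) = b ↔ _
      rw [Subtype.ext_iff]

theorem block_bound (t k : ℕ) (ht : 1 ≤ t) (htk : t ≤ k) (W₀ : Submodule F V) (hW : finrank F W₀ = k) (ξ : Submodule F V → ℝ) :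
    (Nat.card F : ℝ) ^ ((finrank F V - k) * k) * |deg F t ξ W₀ - round (deg F t ξ W₀)| ^ 2 ≤
      (2 * (Nat.card F : ℝ) ^ (k * t)) ^ 2 * (Nat.card F : ℝ) ^ ((finrank F V - k) * t) *
        ∑ W : {W : Submodule F V // finrank F W = k}, |deg F t ξ W.1 - round (deg F t ξ W.1)| ^ 2 := by
  obtain ⟨p, hp⟩ := CharP.exists F
  haveI : Fact p.Prime := ⟨(CharP.char_is_prime F p)⟩
  haveI : NeZero k := ⟨by omega⟩
  have hfr : finrank F (FiniteField.Extension F p k) = k := FiniteField.finrank_extension F p k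
  exact gd_main F (K := FiniteField.Extension F p k) t k htk hfr W₀ hW ξ

end Pool.Agent.H64.HV
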