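import Mathlib
import Pool.Agent.H64.HV.Gd
import Pool.Agent.H64.HV.Crd

/-!
# All values are close to integers

`hnum` is the numeric inequality (proved in `H24/OF`; it is a hypothesis here). `R = (2 q^(k t))^2 q^(y t) E / q^(y k)` with `y = finrank V - k`, `E` = the sum of the
squares; `block_bound`: `|x W - round (x W)|^2 ≤ R`. `δ = sqrt R`. `E ≤ N log (B + 1) / 2`, and `hnum` gives `(2 q^((t+1) t))^2 R < 1`.
-/

set_option autoImplicit false
set_option linter.unusedSectionVars false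

open Module
open scoped Classical

namespace Pool.Agent.H64.HV

variable (F : Type) [Field F] [Finite F] {V : Type} [AddCommGroup V] [Module F V] [Finite V]

theorem all_small (t k : ℕ) (ht : 1 ≤ t) (htk : t ≤ k) (N B : ℝ)
    (hnum : (2 * (Nat.card F : ℝ) ^ ((t + 1) * t)) ^ 2 * (2 * (Nat.card F : ℝ) ^ (k * t)) ^ 2 *
      (Nat.card F : ℝ) ^ ((finrank F V - k) * t) * (N * Real.log (B + 1) / 2) < (Nat.card F : ℝ) ^ ((finrank F V - k) * k))
    (ξ : Submodule F V → ℝ)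
    (hE : ∑ W : {W : Submodule F V // finrank F W = k}, |deg F t ξ W.1 - round (deg F t ξ W.1)| ^ 2 ≤ N * Real.log (B + 1) / 2) :
    ∃ δ : ℝ, 0 ≤ δ ∧ 2 * (Nat.card F : ℝ) ^ ((t + 1) * t) * δ < 1 ∧
      ∀ W : Submodule F V, finrank F W = k → |deg F t ξ W - round (deg F t ξ W)| ≤ δ := by
  have hq : (0 : ℝ) < Nat.card F := by exact_mod_cast Nat.card_pos
  obtain ⟨E, hEdef⟩ : ∃ E, E = ∑ W : {W : Submodule F V // finrank F W = k},
      |deg F t ξ W.1 - round (deg F t ξ W.1)| ^ 2 := ⟨_, rfl⟩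
  rw [← hEdef] at hE
  have hE0 : 0 ≤ E := by
    rw [hEdef]
    positivity
  obtain ⟨D, hD⟩ : ∃ D, D = (Nat.card F : ℝ) ^ ((finrank F V - k) * k) := ⟨_, rfl⟩
  have hDpos : 0 < D := by
    rw [hD]
    positivity
  obtain ⟨R, hR⟩ : ∃ R, R = (2 * (Nat.card F : ℝ) ^ (k * t)) ^ 2 * (Nat.card F : ℝ) ^ ((finrank F V - k) * t) * E / D :=
    ⟨_, rfl⟩
  have hR0 : 0 ≤ R := by
    rw [hR]
    positivity
  refine ⟨Real.sqrt R, Real.sqrt_nonneg _, ?_, ?_⟩
  · have h1 : (2 * (Nat.card F : ℝ) ^ ((t + 1) * t)) ^ 2 * R < 1 := by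
      rw [hR, ← mul_div_assoc, div_lt_one hDpos]
      calc (2 * (Nat.card F : ℝ) ^ ((t + 1) * t)) ^ 2 *
          ((2 * (Nat.card F : ℝ) ^ (k * t)) ^ 2 * (Nat.card F : ℝ) ^ ((finrank F V - k) * t) * E)
          = (2 * (Nat.card F : ℝ) ^ ((t + 1) * t)) ^ 2 * (2 * (Nat.card F : ℝ) ^ (k * t)) ^ 2 *
            (Nat.card F : ℝ) ^ ((finrank F V - k) * t) * E := by ring
        _ ≤ (2 * (Nat.card F : ℝ) ^ ((t + 1) * t)) ^ 2 * (2 * (Nat.card F : ℝ) ^ (k * t)) ^ 2 *
            (Nat.card F : ℝ) ^ ((finrank F V - k) * t) * (N * Real.log (B + 1) / 2) := by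
          apply mul_le_mul_of_nonneg_left hE
          positivity
        _ < D := by
          rw [hD]
          exact hnum
    have h2 : (2 * (Nat.card F : ℝ) ^ ((t + 1) * t) * Real.sqrt R) ^ 2 < 1 := by
      rw [mul_pow, Real.sq_sqrt hR0]
      exact h1
    have h3 : 0 ≤ 2 * (Nat.card F : ℝ) ^ ((t + 1) * t) * Real.sqrt R := by positivity
    nlinarith
  · intro W hW
    have h1 := block_bound F t k ht htk W hW ξ
    rw [← hEdef, ← hD] at h1
    have h2 : |deg F t ξ W - round (deg F t ξ W)| ^ 2 ≤ R := by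
      rw [hR, le_div_iff₀ hDpos, mul_comm]
      exact h1
    rw [← Real.sqrt_sq (abs_nonneg (deg F t ξ W - round (deg F t ξ W)))]
    exact Real.sqrt_le_sqrt h2

end Pool.Agent.H64.HV
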