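import Mathlib
import Pool.Agent.H64.HV.Grp

/-!
# Invariant null functions are determined by the large intersections

Downward induction on `i = finrank (W₁ ⊓ U)` (strong induction on `t - i`). If `i > t` or `finrank W₁ ≠ k` the value is `0` by hypothesis. Let
`i ≤ t`: choose `T` with `W₁ ⊓ U ≤ T ≤ W₁`, `finrank T = t` (`t ≤ k`); so `T ⊓ U = W₁ ⊓ U`. `∑_{W ≥ T} f W = 0`. For `W ≥ T`: `finrank (W ⊓ U) ≥ i`;
the terms with `finrank W ≠ k` and those with `finrank (W ⊓ U) > i` are `0`; all other terms are equal to `f W₁` (`InvF`); there is at least one (`W₁`); so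
`f W₁ = 0`.
-/

set_option autoImplicit false
set_option linter.unusedSectionVars false

open Module
open scoped Classical
open Pool.Agent.H24.LS

namespace Pool.Agent.H64.HV

variable {F : Type} [Field F] [Finite F] {V : Type} [AddCommGroup V] [Module F V] [Finite V]

private theorem van_ext (A W : Submodule F V) (hAW : A ≤ W) (d : ℕ) : finrank F A ≤ d → d ≤ finrank F W →
    ∃ T : Submodule F V, A ≤ T ∧ T ≤ W ∧ finrank F T = d := by
  have hfin : FiniteDimensional F V := Module.Finite.of_finite
  intro h
  induction d, h using Nat.le_induction with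
  | base => intro _; exact ⟨A, le_rfl, hAW, rfl⟩
  | succ d hd ih =>
    intro hK
    obtain ⟨T, h1, h2, h3⟩ := ih (by omega)
    have h4 : T < W := by
      refine lt_of_le_of_ne h2 fun h => ?_
      rw [h] at h3
      omega
    obtain ⟨v, hvW, hv⟩ := SetLike.exists_of_lt h4
    refine ⟨T ⊔ Submodule.span F {v}, h1.trans le_sup_left, sup_le h2 ?_, ?_⟩
    · rw [Submodule.span_le, Set.singleton_subset_iff]
      exact hvW
    · rw [Submodule.finrank_sup_span_singleton hv, h3]

theorem inv_vanish (t k : ℕ) (htk : t ≤ k) (U : Submodule F V) (f : Submodule F V → ℤ) (hf : Null (t + 1) f) (hinv : InvF U f)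
    (hs : ∀ W, f W ≠ 0 → finrank F W = k) (hz : ∀ W : Submodule F V, t < finrank F (W ⊓ U : Submodule F V) → f W = 0) :
    ∀ W, f W = 0 := by
  have hfin : FiniteDimensional F V := Module.Finite.of_finite
  have key : ∀ n : ℕ, ∀ W : Submodule F V, t + 1 ≤ finrank F (W ⊓ U : Submodule F V) + n → f W = 0 := by
    intro n
    induction n with
    | zero => intro W hW; exact hz W (by omega)
    | succ n ih =>
      intro W hW
      by_cases h1 : t + 1 ≤ finrank F (W ⊓ U : Submodule F V) + n
      · exact ih W h1
      by_cases h2 : finrank F W = k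
      · obtain ⟨T, hT1, hT2, hT3⟩ := van_ext (W ⊓ U) W inf_le_left t (by omega) (by omega)
        have h3 := hf T (by omega)
        have h4 : ∀ W' : Submodule F V, (if T ≤ W' then f W' else 0) =
            (if (T ≤ W' ∧ finrank F W' = k ∧
              finrank F (W' ⊓ U : Submodule F V) = finrank F (W ⊓ U : Submodule F V)) then f W else 0) := by
          intro W'
          by_cases h5 : T ≤ W'
          · rw [if_pos h5]
            have h6 : W ⊓ U ≤ W' ⊓ U := le_inf (hT1.trans h5) inf_le_right
            have h7 := Submodule.finrank_mono h6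
            by_cases h8 : finrank F (W' ⊓ U : Submodule F V) = finrank F (W ⊓ U : Submodule F V)
            · by_cases h9 : finrank F W' = k
              · rw [if_pos ⟨h5, h9, h8⟩]
                exact hinv W' W (h9.trans h2.symm) h8
              · rw [if_neg fun h => h9 h.2.1]
                by_contra h10
                exact h9 (hs W' h10)
            · rw [if_neg fun h => h8 h.2.2]
              exact ih W' (by omega)
          · rw [if_neg h5, if_neg fun h => h5 h.1]
        rw [Finset.sum_congr rfl fun W' _ => h4 W', ← Finset.sum_filter, Finset.sum_const,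
          nsmul_eq_mul, mul_eq_zero] at h3
        rcases h3 with h3 | h3
        · exfalso
          rw [Nat.cast_eq_zero, Finset.card_eq_zero] at h3
          have h5 : W ∈ (Finset.univ : Finset (Submodule F V)).filter (fun W' => T ≤ W' ∧ finrank F W' = k ∧
              finrank F (W' ⊓ U : Submodule F V) = finrank F (W ⊓ U : Submodule F V)) := by
            rw [Finset.mem_filter]
            exact ⟨Finset.mem_univ _, hT2, h2, rfl⟩
          rw [h3] at h5
          exact Finset.notMem_empty _ h5
        · exact h3
      · by_contra h3
        exact h2 (hs W h3)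
  intro W
  exact key (t + 1) W (by omega)

end Pool.Agent.H64.HV
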