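import Mathlib
import Pool.Agent.H64.HV.Van
import Pool.Agent.H64.HV.Loc

/-!
# Orthogonality to the small trades implies orthogonality to the invariant null functions

By induction on `m ≤ s + 1 - t`: if `f` is invariant, null of strength `t`, supported in dimension `k` and `f W = 0` whenever
`t + m < finrank (W ⊓ U)`, then `∑ f W η W = 0`. `m = 0`: `inv_vanish`. Step: `l = t + m + 1 ≤ s + 1`; take `c`, `W₀` from `exists_loc`, `g = avg U c`:
`g W = 0` if `finrank (W ⊓ U) > l` (`avg_zero`), `α = g W₀ > 0` (`avg_pos`; the other `W'` with `c W' ≠ 0` have `finrank (W' ⊓ U) < l`), `∑ g W η W = 0` (`avg_orth`,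
`h`, `map_null`, `map_sum` for the norm, the support: `finrank (W.map e) = finrank W`). `f' = α f - f W₀ g` is invariant, null, supported in dimension `k`, and vanishes
when `finrank (W ⊓ U) > t + m` (if it is `l` and `finrank W = k`: `f W = f W₀`, `g W = g W₀` by invariance). So `∑ f' η = 0`, `α ∑ f η = 0`.
For `m = s + 1 - t` the vanishing hypothesis is empty (`finrank (W ⊓ U) ≤ s + 1`).
-/

set_option autoImplicit false
set_option linter.unusedSectionVars false

open Module
open scoped Classical
open Pool.Agent.H24.LS

namespace Pool.Agent.H64.HV

variable {F : Type} [Field F] [Finite F] {V : Type} [AddCommGroup V] [Module F V] [Finite V]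

theorem span_orth (t s k : ℕ) (hts : t ≤ s) (U : Submodule F V) (hU : finrank F U = s + 1) (hk : s + 1 ≤ k)
    (hv : k + s + 1 ≤ finrank F V) (η : Submodule F V → ℝ)
    (h : ∀ c : Submodule F V → ℤ, Null (t + 1) c → (∀ W, c W ≠ 0 → finrank F W = k) →
      (∑ W : Submodule F V, |c W| ≤ 2 * (Nat.card F : ℤ) ^ ((t + 1) * t)) → ∑ W : Submodule F V, (c W : ℝ) * η W = 0)
    (f : Submodule F V → ℤ) (hf : Null (t + 1) f) (hinv : InvF U f) (hs : ∀ W, f W ≠ 0 → finrank F W = k) :
    ∑ W : Submodule F V, (f W : ℝ) * η W = 0 := by
  have key : ∀ m : ℕ, t + m ≤ s + 1 → ∀ f : Submodule F V → ℤ, Null (t + 1) f → InvF U f →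
      (∀ W, f W ≠ 0 → finrank F W = k) →
      (∀ W : Submodule F V, t + m < finrank F (W ⊓ U : Submodule F V) → f W = 0) →
      ∑ W : Submodule F V, (f W : ℝ) * η W = 0 := by
    intro m
    induction m with
    | zero =>
      intro _ f hf hinv hs hz
      have h0 := inv_vanish t k (by omega) U f hf hinv hs hz
      refine Finset.sum_eq_zero fun W _ => ?_
      rw [h0 W, Int.cast_zero, zero_mul]
    | succ m ih =>
      intro hm f hf hinv hs hz
      obtain ⟨c, W₀, hcN, hcs, hcn, hW0, hWl, hc1, hco⟩ :=
        exists_loc t (t + m + 1) s k U hU (by omega) (by omega) hk hv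
      have hgN := avg_null U hcN
      have hgI := avg_inv U c
      have hgs : ∀ W, avg U c W ≠ 0 → finrank F W = k := by
        intro W hW
        by_contra hne
        apply hW
        apply avg_zero
        intro W' h1 _
        by_contra h2
        exact hne (h1 ▸ hcs W' h2)
      have hgz : ∀ W : Submodule F V, t + m + 1 < finrank F (W ⊓ U : Submodule F V) →
          avg U c W = 0 := by
        intro W hW
        apply avg_zero
        intro W' _ h2
        by_contra h3
        rcases eq_or_ne W' W₀ with h4 | h4
        · rw [h4, hWl] at h2
          omega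
        · have h5 := hco W' h3 h4
          omega
      have hα : 0 < avg U c W₀ := by
        apply avg_pos
        · rw [hc1]
          exact one_pos
        · intro W' h1 _ h3
          by_contra h4
          have h5 := hco W' h4 h1
          omega
      have hgo : ∑ W : Submodule F V, (avg U c W : ℝ) * η W = 0 := by
        apply avg_orth
        intro e
        apply h (fun W => c (W.map (e : V →ₗ[F] V))) (map_null hcN e)
        · intro W hW
          have h1 := hcs _ hW
          rw [← h1]
          exact (LinearEquiv.finrank_map_eq e W).symm
        · have h1 := Pool.Agent.H64.HV.map_sum (fun W => |c W|) e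
          exact h1.le.trans hcn
      obtain ⟨α, hαe⟩ : ∃ α, α = avg U c W₀ := ⟨_, rfl⟩
      have h1 := ih (by omega) (fun W => α * f W - f W₀ * avg U c W) (by
        intro T hT
        have h2 := hf T hT
        have h3 := hgN T hT
        have h4 : ∀ W : Submodule F V, (if T ≤ W then α * f W - f W₀ * avg U c W else 0) =
            α * (if T ≤ W then f W else 0) - f W₀ * (if T ≤ W then avg U c W else 0) := by
          intro W
          split_ifs
          · rfl
          · simp
        rw [Finset.sum_congr rfl fun W _ => h4 W, Finset.sum_sub_distrib, ← Finset.mul_sum,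
          ← Finset.mul_sum, h2, h3]
        simp) (by
        intro W W' h2 h3
        simp only
        rw [hinv W W' h2 h3, hgI W W' h2 h3]) (by
        intro W hW
        by_contra hne
        apply hW
        have h2 : f W = 0 := by
          by_contra h3
          exact hne (hs W h3)
        have h3 : avg U c W = 0 := by
          by_contra h4
          exact hne (hgs W h4)
        rw [h2, h3]
        simp) (by
        intro W hW
        rcases Nat.lt_or_ge (t + m + 1) (finrank F (W ⊓ U : Submodule F V)) with h2 | h2
        · rw [hz W (by omega), hgz W h2]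
          simp
        · have h3 : finrank F (W ⊓ U : Submodule F V) = t + m + 1 := by omega
          by_cases hWk : finrank F W = k
          · rw [hinv W W₀ (by rw [hWk, hW0]) (by rw [h3, hWl]),
              hgI W W₀ (by rw [hWk, hW0]) (by rw [h3, hWl]), hαe]
            ring
          · have h4 : f W = 0 := by
              by_contra h5
              exact hWk (hs W h5)
            have h5 : avg U c W = 0 := by
              by_contra h6
              exact hWk (hgs W h6)
            rw [h4, h5]
            simp)
      have h2 : ∑ W : Submodule F V, ((α * f W - f W₀ * avg U c W : ℤ) : ℝ) * η W =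
          (α : ℝ) * ∑ W : Submodule F V, (f W : ℝ) * η W -
            (f W₀ : ℝ) * ∑ W : Submodule F V, (avg U c W : ℝ) * η W := by
        rw [Finset.mul_sum, Finset.mul_sum, ← Finset.sum_sub_distrib]
        refine Finset.sum_congr rfl fun W _ => ?_
        push_cast
        ring
      rw [h2, hgo, mul_zero, sub_zero] at h1
      rcases mul_eq_zero.1 h1 with h3 | h3
      · exfalso
        rw [← hαe] at hα
        have h4 : α = 0 := by exact_mod_cast h3
        omega
      · exact h3
  refine key (s + 1 - t) (by omega) f hf hinv hs ?_
  intro W hW
  exfalso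
  have h1 : finrank F (W ⊓ U : Submodule F V) ≤ finrank F U :=
    Submodule.finrank_mono inf_le_right
  omega

end Pool.Agent.H64.HV
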