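import Mathlib
import Pool.Agent.H64.HV.Sml
import Pool.Agent.H64.HV.Orth
import Pool.Agent.H64.HV.Spn

/-!
# Assembly

`halv_of`: the halving exists if there is an odd valued invariant null function `f₀` (strength `s ≥ t`, invariant for `U` of dimension
`s + 1`) and the numeric inequality holds. Suppose there is no halving. `Pool.H38.HQ.fourier` with `α = {T // finrank F T = t}`, `β = {W // finrank F W = k}`, `inc T W = (T.1 ≤ W.1)`
gives `ξ`; extend it to all subspaces by `0`; then `deg F t ξ' W.1` is the sum in `fourier`. `all_small` gives `δ`, `small_orth` and `span_orth` give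
`∑ f₀ η = 0`, `deg_orth` gives `∑ f₀ x = 0`; `Pool.H38.HQ.pos_of_odd` contradicts the sign of the product (`|x - round x| ≤ δ < 1 / 2`).
-/

set_option autoImplicit false
set_option linter.unusedSectionVars false

open Module
open scoped Classical
open Pool.Agent.H24.LS

namespace Pool.Agent.H64.HV

variable (F : Type) [Field F] [Finite F] {V : Type} [AddCommGroup V] [Module F V] [Finite V]

theorem sum_gr {M : Type} [AddCommMonoid M] (k : ℕ) (g : Submodule F V → M) (h : ∀ W : Submodule F V, finrank F W ≠ k → g W = 0) :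
    ∑ W : Submodule F V, g W = ∑ b : {W : Submodule F V // finrank F W = k}, g b.1 := by
  rw [← Finset.sum_subtype (Finset.univ.filter fun W : Submodule F V => finrank F W = k) (fun x => by simp) g,
    Finset.sum_filter]
  apply Finset.sum_congr rfl
  intro W _
  by_cases hW : finrank F W = k
  · rw [if_pos hW]
  · rw [if_neg hW, h W hW]

theorem halv_of (t s k : ℕ) (ht : 1 ≤ t) (hts : t ≤ s) (hk : s + 1 ≤ k) (hv : k + s + 1 ≤ finrank F V)
    (U : Submodule F V) (hU : finrank F U = s + 1) (f₀ : Submodule F V → ℤ)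
    (hodd : ∀ W : Submodule F V, finrank F W = k → Odd (f₀ W))
    (hsupp : ∀ W : Submodule F V, f₀ W ≠ 0 → finrank F W = k) (hnull : Null (s + 1) f₀) (hinv : InvF U f₀)
    (hnum : (2 * (Nat.card F : ℝ) ^ ((t + 1) * t)) ^ 2 * (2 * (Nat.card F : ℝ) ^ (k * t)) ^ 2 *
      (Nat.card F : ℝ) ^ ((finrank F V - k) * t) *
        ((Nat.card {T : Submodule F V // finrank F T = t} : ℝ) *
          Real.log ((Nat.card {W : Submodule F V // finrank F W = k} : ℝ) + 1) / 2) < (Nat.card F : ℝ) ^ ((finrank F V - k) * k)) :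
    Halv (t + 1) (Gr F k V) := by
  by_contra hno
  have hno' : ¬ ∃ f : {W : Submodule F V // finrank F W = k} → ℤ, (∀ b, f b = 1 ∨ f b = -1) ∧
      ∀ a : {T : Submodule F V // finrank F T = t}, ∑ b : {W : Submodule F V // finrank F W = k},
        (if a.1 ≤ b.1 then f b else 0) = 0 := by
    rintro ⟨f, hf1, hf2⟩
    apply hno
    refine ⟨fun W => if h : finrank F W = k then f ⟨W, h⟩ else 0, ?_, ?_, ?_⟩
    · intro W hW
      have hW' : finrank F W = k := hW
      show (if h : finrank F W = k then f ⟨W, h⟩ else 0) = 1 ∨ (if h : finrank F W = k then f ⟨W, h⟩ else 0) = -1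
      rw [dif_pos hW']
      exact hf1 _
    · intro W hW
      have hW' : ¬ finrank F W = k := hW
      exact dif_neg hW'
    · apply null_down t k (by omega)
      · intro W hW
        by_contra h
        exact hW (dif_neg h)
      · omega
      · intro T hT
        refine Eq.trans ?_ (hf2 ⟨T, hT⟩)
        rw [sum_gr F k]
        · apply Finset.sum_congr rfl
          intro b _
          rw [dif_pos b.2]
        · intro W hW
          rw [dif_neg hW, ite_self]
  obtain ⟨ξ, hξ1, hξ2⟩ := Pool.H38.HQ.fourier (α := {T : Submodule F V // finrank F T = t})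
    (β := {W : Submodule F V // finrank F W = k}) (fun a b => a.1 ≤ b.1) hno'
  obtain ⟨ξ', hξ'⟩ : ∃ ξ' : Submodule F V → ℝ, 
      ξ' = fun T : Submodule F V => if h : finrank F T = t then ξ ⟨T, h⟩ else 0 := ⟨_, rfl⟩
  have hx : ∀ b : {W : Submodule F V // finrank F W = k},
      (∑ a : {T : Submodule F V // finrank F T = t}, if a.1 ≤ b.1 then ξ a else 0) = deg F t ξ' b.1 := by
    intro b
    unfold deg
    rw [sum_gr F t]
    · apply Finset.sum_congr rfl
      intro a _
      rw [hξ']
      by_cases hab : a.1 ≤ b.1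
      · rw [if_pos hab, if_pos ⟨a.2, hab⟩]
        show ξ a = (if h : finrank F a.1 = t then ξ ⟨a.1, h⟩ else 0)
        rw [dif_pos a.2]
      · rw [if_neg hab, if_neg (fun h => hab h.2)]
    · intro T hT
      rw [if_neg (fun h => hT h.1)]
  have hprod : (∏ b : {W : Submodule F V // finrank F W = k}, Real.cos (Real.pi * deg F t ξ' b.1)) < 0 := by
    rw [← Finset.prod_congr rfl (fun b _ => by rw [← hx b])]
    exact hξ1
  have hE : ∑ W : {W : Submodule F V // finrank F W = k}, |deg F t ξ' W.1 - round (deg F t ξ' W.1)| ^ 2 ≤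
      (Nat.card {T : Submodule F V // finrank F T = t} : ℝ) *
          Real.log ((Nat.card {W : Submodule F V // finrank F W = k} : ℝ) + 1) / 2 := by
    rw [Nat.card_eq_fintype_card, Nat.card_eq_fintype_card]
    refine le_trans (le_of_eq ?_) hξ2
    apply Finset.sum_congr rfl
    intro b _
    rw [sq_abs, hx b]
  obtain ⟨δ, hδ0, hδ, hsm⟩ := all_small F t k ht (by omega) _ _ hnum ξ' hE
  have hq : (0 : ℝ) < (Nat.card F : ℝ) := by exact_mod_cast Nat.card_pos
  have hq1 : (1 : ℝ) ≤ (Nat.card F : ℝ) := by exact_mod_cast Nat.card_pos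
  have hhalf : δ < 1 / 2 := by
    have h1 : (1 : ℝ) ≤ (Nat.card F : ℝ) ^ ((t + 1) * t) := one_le_pow₀ hq1
    nlinarith
  have horth := span_orth t s k hts U hU hk hv (fun W => deg F t ξ' W - round (deg F t ξ' W))
    (fun c hc1 hc2 hc3 => small_orth F t k ξ' _ δ hδ0 hδ hsm c hc1 hc2 (by
      have : ((∑ W : Submodule F V, |c W| : ℤ) : ℝ) ≤ ((2 * (Nat.card F : ℤ) ^ ((t + 1) * t) : ℤ) : ℝ) := by
        exact_mod_cast hc3
      push_cast at this
      exact this)) f₀
    (fun T hT => hnull T (by omega)) hinv hsupp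
  have h0 := deg_orth F t ξ' f₀ (fun T hT => hnull T (by omega))
  have hpos := Pool.H38.HQ.pos_of_odd (β := {W : Submodule F V // finrank F W = k}) (fun b => deg F t ξ' b.1)
    (fun b => f₀ b.1) (fun b => hodd b.1 b.2) ?_ ?_ ?_
  · exact absurd hprod (not_lt.mpr hpos.le)
  · rw [← h0, sum_gr F k]
    intro W hW
    have : f₀ W = 0 := by
      by_contra h
      exact hW (hsupp W h)
    rw [this]
    simp
  · rw [← horth, sum_gr F k]
    intro W hW
    have : f₀ W = 0 := by
      by_contra h
      exact hW (hsupp W h)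
    rw [this]
    simp
  · intro b
    exact lt_of_le_of_lt (hsm b.1 b.2) hhalf

end Pool.Agent.H64.HV
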