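import Mathlib
import Pool.Agent.H24.OF.Num
import Pool.Agent.H24.OF.Odd
import Pool.Agent.H64.HV.Mn
import Pool.Agent.H64.HV.Crd

/-!
# All admissible `LS_q[2](t, k, v)` with `6 t < k < v - 6 t` are realizable
-/

set_option autoImplicit false

open Module
open scoped Classical
open Pool.Agent.H24.LS

namespace Pool.Agent.H64.HV

theorem main_pos (F : Type) [Field F] [Finite F] (t k v : ℕ) (ht : 1 ≤ t) (h1 : 6 * t < k)
    (h2 : k + 6 * t < v) (h : Adm F t k v) : HalvProp F t k v := by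
  obtain ⟨hq, l, hl1, hl2⟩ := adm_level (by omega) (by omega) h
  rw [← L_iff (by omega) (by omega)]
  have hfr : finrank F (Fin v → F) = v := by simp
  obtain ⟨U, f, hU, hinv, hnull, hodd, hzero⟩ :=
    Pool.Agent.H24.OF.odd_null (F := F) (V := Fin v → F) k l (v % 2 ^ l) v hfr hq rfl hl2 (by omega)
  have hp : 0 < 2 ^ l := pow_pos (by norm_num) l
  have hbm : k % 2 ^ l < 2 ^ l := Nat.mod_lt _ hp
  have hsk : v % 2 ^ l + 1 ≤ k := by
    have := Nat.mod_le k (2 ^ l)
    omega
  have hK := Nat.div_add_mod k (2 ^ l)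
  have hVd := Nat.div_add_mod v (2 ^ l)
  have hksv : k + v % 2 ^ l + 1 ≤ v := by
    have h3 : k / 2 ^ l < v / 2 ^ l := by
      by_contra h4
      push Not at h4
      have := Nat.mul_le_mul_left (2 ^ l) h4
      omega
    have h5 := Nat.mul_le_mul_left (2 ^ l) (Nat.succ_le_of_lt h3)
    rw [Nat.succ_eq_add_one, Nat.mul_add, Nat.mul_one] at h5
    omega
  have hq1 : 1 < Nat.card F := Finite.one_lt_card
  have hq3 : 3 ≤ Nat.card F := by
    obtain ⟨c, hc⟩ := hq
    omega
  have hN := card_gr_le (F := F) (V := Fin v → F) t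
  have hB := card_gr_le (F := F) (V := Fin v → F) k
  rw [hfr] at hN hB
  have hkv : k + (v - k) = v := by omega
  have hnum := Pool.Agent.H24.OF.num_ineq t k (v - k) (Nat.card F) ht hq3 h1 (by omega)
    (Nat.card {T : Submodule F (Fin v → F) // finrank F T = t})
    (Nat.card {W : Submodule F (Fin v → F) // finrank F W = k})
    (by rw [hkv]; exact hN) (by rw [hkv]; exact hB)
  have hnum' := hnum
  rw [Nat.mul_comm t (t + 1), Nat.mul_comm t (v - k), Nat.mul_comm k (v - k)] at hnum'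
  refine halv_of F t (v % 2 ^ l) k ht hl1 hsk (by rw [hfr]; exact hksv) U hU f hodd ?_ hnull hinv ?_
  · intro W hW
    by_contra hc
    exact hW (hzero W hc)
  · rw [hfr]
    exact hnum'

theorem main_zero (F : Type) [Field F] [Finite F] (k v : ℕ) (h : Adm F 0 k v) : HalvProp F 0 k v := by
  have h1 := h 0 le_rfl ⊥ (finrank_bot F _)
  obtain ⟨c, hc⟩ := h1
  obtain ⟨D, hD1, hD2⟩ := Set.exists_subset_card_eq (s := {W : Submodule F (Fin v → F) | finrank F W = k ∧ ⊥ ≤ W}) (n := c) (by omega)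
  refine ⟨D, fun W hW => (hD1 hW).1, ?_⟩
  intro T hT
  have hT0 : T = ⊥ := Submodule.finrank_eq_zero.1 hT
  subst hT0
  have e : {W : Submodule F (Fin v → F) | W ∈ D ∧ ⊥ ≤ W} = D := by
    ext W
    simp
  rw [e, hc, hD2]
  omega

theorem main (F : Type) [Field F] [Finite F] (t k v : ℕ) (h1 : 6 * t < k)
    (h2 : k + 6 * t < v) (h : Adm F t k v) : HalvProp F t k v := by
  rcases Nat.eq_zero_or_pos t with rfl | ht
  · exact main_zero F k v h
  · exact main_pos F t k v ht h1 h2 h

end Pool.Agent.H64.HV
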