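import Mathlib
import Pool.Agent.H64.HV.Fin
import Pool.Agent.H14.Halv.Final

/-!
# Only finitely many root cases remain for each strength
-/

set_option autoImplicit false

open Module
open Pool.Agent.H24.LS

namespace Pool.Agent.H64.HV

theorem finite_roots (F : Type) [Field F] [Finite F] (t : ℕ)
    (hroot : ∀ n j : ℕ, 2 * j ≤ t → t < 2 ^ n + j → 2 ^ n + j ≤ 6 * t → (t = 2 → j = 0) →
      Adm F t (2 ^ n + j) (2 ^ (n + 1) + t) → HalvProp F t (2 ^ n + j) (2 ^ (n + 1) + t)) :
    ∀ k v : ℕ, t < k → k ≤ v → Adm F t k v → HalvProp F t k v := by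
  by_cases ht2 : t = 2
  · subst ht2
    refine Pool.Agent.H14.Halv.reduction_two F ?_
    intro n hn hadm
    have hpow : 2 ^ (n + 1) = 2 * 2 ^ n := pow_succ' 2 n
    have h4 : 2 ^ 2 ≤ 2 ^ n := Nat.pow_le_pow_right (by norm_num) hn
    by_cases hs : 2 ^ n ≤ 12
    · have h := hroot n 0 (by omega) (by omega) (by omega) (fun _ => rfl)
      rw [Nat.add_zero] at h
      exact h hadm
    · exact main F 2 _ _ (by omega) (by omega) hadm
  · refine roots_suffice F t ?_
    intro n j hj hn hadm
    have hpow : 2 ^ (n + 1) = 2 * 2 ^ n := pow_succ' 2 n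
    by_cases hs : 2 ^ n + j ≤ 6 * t
    · exact hroot n j hj hn hs (fun h => absurd h ht2) hadm
    · exact main F t _ _ (by omega) (by omega) hadm

end Pool.Agent.H64.HV
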